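import Pool.Agent.EAP.JF

/-!
# EAP [CLS]: the classes of the visible set of a minimal ladder
-/

set_option autoImplicit false
set_option linter.unusedVariables false
set_option linter.unusedSectionVars false

namespace EAP

open Set ORD

/-- a minimal ladder in an indiscernible sequence, and fixed indices -/
structure Dat (L : FirstOrder.Language.{0, 0}) (V P R α β κ : Type) where
  S : L.Structure V
  M : Set V
  d : ℚ → R → V
  c : P → M
  q : Qf L (P ⊕ (α ⊕ β))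
  fa : α → R
  fb : β → R
  s : κ → ℚ
  u : κ → ℚ
  ind : Indc S M d
  min : Mnl S (Nat.card α + Nat.card β)
  lad : ∀ i j, i ≠ j → (Rf S (fun p => (c p : V)) q (d i ∘ fa) (d j ∘ fb) ↔ i < j)
  new : ∀ i k, d i k ∉ M
  dif : ∀ i j k l, i ≠ j → d i k ≠ d j l
  sin : Function.Injective s
  uin : Function.Injective u
  su : ∀ l l', s l < u l'
  ka : Nat.card α < Nat.card κ
  kb : Nat.card β < Nat.card κ

variable {L : FirstOrder.Language.{0, 0}} {V P R α β κ : Type}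

namespace Dat

variable (D : Dat L V P R α β κ)

/-- the relation of the ladder -/
def Φ (x : α → V) (y : β → V) : Prop := Rf D.S (fun p => (D.c p : V)) D.q x y

/-- the sets `A J` -/
def A (J : Set ℚ) : Set V := D.M ∪ {v | ∃ i ∈ J, ∃ k, D.d i k = v}

/-- the visible set of the first side -/
def X (A : Set V) : Set (α → V) :=
  {x | (∀ k, x k ∈ A) ∧ ∀ l, ¬ D.Φ x (D.d (D.s l) ∘ D.fb) ∧ D.Φ x (D.d (D.u l) ∘ D.fb)}

/-- the visible set of the second side -/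
def Y (A : Set V) : Set (β → V) :=
  {y | (∀ k, y k ∈ A) ∧ ∀ l, D.Φ (D.d (D.s l) ∘ D.fa) y ∧ ¬ D.Φ (D.d (D.u l) ∘ D.fa) y}

/-- the rows differ in finitely many places -/
def Eqv (A : Set V) (x x' : α → V) : Prop := {y ∈ D.Y A | ¬ (D.Φ x y ↔ D.Φ x' y)}.Finite

/-- the class -/
def cls (A : Set V) (x : α → V) : Set (α → V) := {x' ∈ D.X A | D.Eqv A x x'}

/-- the window -/
def W : Set ℚ := {i | ∀ l, D.s l ≤ i ∧ i ≤ D.u l}

variable {D}

theorem term {J : Set ℚ} {ι : Type} {x : ι → V} (hx : ∀ k, x k ∈ D.A J) :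
    ∃ t : ι → D.M ⊕ (ℚ × R), x = ev D.d ∘ t ∧ ∀ k, ∀ e ∈ ix (t k), e ∈ J := by
  have h : ∀ k, ∃ t : D.M ⊕ (ℚ × R), x k = ev D.d t ∧ ∀ e ∈ ix t, e ∈ J := by
    intro k
    rcases hx k with h | ⟨i, hi, r, hr⟩
    · exact ⟨Sum.inl ⟨x k, h⟩, rfl, fun e he => absurd he (notMem_empty _)⟩
    · exact ⟨Sum.inr (i, r), hr.symm, fun e he => by
        rw [mem_singleton_iff.1 he]
        exact hi⟩
  choose t ht using h
  exact ⟨t, funext fun k => (ht k).1, fun k => (ht k).2⟩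

variable [Finite P] [Finite R] [Finite α] [Finite β] [Finite κ] [Nonempty α] [Nonempty β]
  [Nonempty κ]

theorem memX {J : Set ℚ} {x : α → V} (hx : x ∈ D.X (D.A J)) :
    ∃ i ∈ J, i ∈ D.W ∧ ∃ f : α → R, x = D.d i ∘ f ∧
      (∀ j < i, ¬ D.Φ x (D.d j ∘ D.fb)) ∧ ∀ j, i < j → D.Φ x (D.d j ∘ D.fb) := by
  obtain ⟨t, ht, htJ⟩ := term hx.1
  obtain ⟨i, f, h1, h2, h3, h4, h5⟩ := jf D.ind D.c t D.fb D.q D.min False D.ka D.s D.u D.sin
    D.uin D.su (fun l => ⟨fun h => (hx.2 l).1 (by rw [ht]; exact h), False.elim⟩)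
    (fun l => ⟨fun _ => not_false, fun _ => by
      have h := (hx.2 l).2
      rw [ht] at h
      exact h⟩)
  refine ⟨i, ?_, fun l => ⟨h2 l, h3 l⟩, f, ?_, ?_, ?_⟩
  · obtain ⟨k⟩ := (inferInstance : Nonempty α)
    refine htJ k i ?_
    rw [h1]
    exact rfl
  · rw [ht, h1]
    rfl
  · intro j hj
    rw [ht]
    exact (h4 j hj).1
  · intro j hj
    rw [ht]
    exact (h5 j hj).2 not_false

theorem memY {J : Set ℚ} {y : β → V} (hy : y ∈ D.Y (D.A J)) :
    ∃ j ∈ J, j ∈ D.W ∧ ∃ g : β → R, y = D.d j ∘ g ∧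
      (∀ i < j, D.Φ (D.d i ∘ D.fa) y) ∧ ∀ i, j < i → ¬ D.Φ (D.d i ∘ D.fa) y := by
  obtain ⟨t, ht, htJ⟩ := term hy.1
  have hsw : ∀ (x : α → V) (y : β → V), Rf D.S (fun p => (D.c p : V))
      (D.q.map (Sum.map id Sum.swap)) y x ↔ D.Φ x y := by
    intro x y
    show (D.q.map (Sum.map id Sum.swap)).Tr D.S _ ↔ D.q.Tr D.S _
    rw [qfc_tr_map]
    have h : Sum.elim (fun p => (D.c p : V)) (Sum.elim y x) ∘ Sum.map id Sum.swap
        = Sum.elim (fun p => (D.c p : V)) (Sum.elim x y) := by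
      funext k
      rcases k with k | k | k <;> rfl
    rw [h]
  obtain ⟨j, g, h1, h2, h3, h4, h5⟩ := jf D.ind D.c t D.fa (D.q.map (Sum.map id Sum.swap))
    (by rw [add_comm]; exact D.min) True D.kb D.s D.u D.sin
    D.uin D.su (fun l => by
      rw [hsw, ← ht]
      exact ⟨fun _ => trivial, fun _ => (hy.2 l).1⟩)
    (fun l => by
      rw [hsw, ← ht]
      exact ⟨fun h => absurd h (hy.2 l).2, fun h => absurd trivial h⟩)
  refine ⟨j, ?_, fun l => ⟨h2 l, h3 l⟩, g, ?_, ?_, ?_⟩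
  · obtain ⟨k⟩ := (inferInstance : Nonempty β)
    refine htJ k j ?_
    rw [h1]
    exact rfl
  · rw [ht, h1]
    rfl
  · intro i hi
    have h := h4 i hi
    rw [hsw, ← ht] at h
    exact h.2 trivial
  · intro i hi h6
    have h := h5 i hi
    rw [hsw, ← ht] at h
    exact (h.1 h6) trivial

/-- the values depend on the order of the indices only -/
theorem gen (f : α → R) (g : β → R) {i j i' j' : ℚ} (h : (i < j ∧ i' < j') ∨ (j < i ∧ j' < i')) :
    D.Φ (D.d i ∘ f) (D.d j ∘ g) ↔ D.Φ (D.d i' ∘ f) (D.d j' ∘ g) := by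
  classical
  have hij : i ≠ j := by
    rcases h with h | h
    · exact h.1.ne
    · exact h.1.ne'
  have h1 := JF_ind D.ind D.c (fun k => (Sum.inr (i, f k) : D.M ⊕ (ℚ × R))) g j D.q
    (Function.update (mv1 i i') j j') (by
      have hi : Function.update (mv1 i i') j j' i = i' := by
        rw [Function.update_of_ne hij, JF_mv1]
      have hj : Function.update (mv1 i i') j j' j = j' := Function.update_self ..
      have hc : ∀ e ∈ insert j (⋃ k, ix ((Sum.inr (i, f k) : D.M ⊕ (ℚ × R)))), e = j ∨ e = i := by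
        intro e he
        rcases he with he | he
        · exact Or.inl he
        · obtain ⟨k, hk⟩ := mem_iUnion.1 he
          exact Or.inr (mem_singleton_iff.1 hk)
      intro e he e' he' hee
      rcases hc e he with rfl | rfl <;> rcases hc e' he' with rfl | rfl
      · exact absurd hee (lt_irrefl _)
      · rw [hi, hj]
        rcases h with h | h
        · exact absurd hee (not_lt.2 h.1.le)
        · exact h.2
      · rw [hi, hj]
        rcases h with h | h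
        · exact h.2
        · exact absurd hee (not_lt.2 h.1.le)
      · exact absurd hee (lt_irrefl _))
  rw [Function.update_self] at h1
  have h2 : ev D.d ∘ mv (Function.update (mv1 i i') j j') ∘
      (fun k => (Sum.inr (i, f k) : D.M ⊕ (ℚ × R))) = D.d i' ∘ f := by
    funext k
    show D.d (Function.update (mv1 i i') j j' i) (f k) = D.d i' (f k)
    rw [Function.update_of_ne hij, JF_mv1]
  rw [h2] at h1
  exact h1

/-- the value for smaller index of the first tuple -/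
def pu (D : Dat L V P R α β κ) (f : α → R) (g : β → R) : Prop := D.Φ (D.d 0 ∘ f) (D.d 1 ∘ g)

/-- the value for larger index of the first tuple -/
def pd (D : Dat L V P R α β κ) (f : α → R) (g : β → R) : Prop := D.Φ (D.d 1 ∘ f) (D.d 0 ∘ g)

theorem gen_pu (f : α → R) (g : β → R) {i j : ℚ} (h : i < j) :
    D.Φ (D.d i ∘ f) (D.d j ∘ g) ↔ D.pu f g := gen f g (Or.inl ⟨h, zero_lt_one⟩)

theorem gen_pd (f : α → R) (g : β → R) {i j : ℚ} (h : j < i) :
    D.Φ (D.d i ∘ f) (D.d j ∘ g) ↔ D.pd f g := gen f g (Or.inr ⟨h, zero_lt_one⟩)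

/-- the tuples `f` for the first side -/
def FX (D : Dat L V P R α β κ) (f : α → R) : Prop := ¬ D.pd f D.fb ∧ D.pu f D.fb

/-- the tuples `g` for the second side -/
def FY (D : Dat L V P R α β κ) (g : β → R) : Prop := D.pu D.fa g ∧ ¬ D.pd D.fa g

/-- the open window -/
def Wo (D : Dat L V P R α β κ) : Set ℚ := {i | ∀ l, D.s l < i ∧ i < D.u l}

theorem memA {J : Set ℚ} {i : ℚ} (hi : i ∈ J) {ι : Type} (f : ι → R) :
    ∀ k, (D.d i ∘ f) k ∈ D.A J := fun k => Or.inr ⟨i, hi, f k, rfl⟩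

theorem memXo {J : Set ℚ} {i : ℚ} (hi : i ∈ J) (hw : i ∈ D.Wo) (f : α → R) :
    D.d i ∘ f ∈ D.X (D.A J) ↔ D.FX f := by
  constructor
  · intro h
    obtain ⟨l⟩ := (inferInstance : Nonempty κ)
    exact ⟨fun h1 => (h.2 l).1 ((gen_pd f D.fb (hw l).1).2 h1),
      (gen_pu f D.fb (hw l).2).1 (h.2 l).2⟩
  · intro h
    exact ⟨memA hi f, fun l => ⟨fun h1 => h.1 ((gen_pd f D.fb (hw l).1).1 h1),
      (gen_pu f D.fb (hw l).2).2 h.2⟩⟩

theorem memYo {J : Set ℚ} {j : ℚ} (hj : j ∈ J) (hw : j ∈ D.Wo) (g : β → R) :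
    D.d j ∘ g ∈ D.Y (D.A J) ↔ D.FY g := by
  constructor
  · intro h
    obtain ⟨l⟩ := (inferInstance : Nonempty κ)
    exact ⟨(gen_pu D.fa g (hw l).1).1 (h.2 l).1,
      fun h1 => (h.2 l).2 ((gen_pd D.fa g (hw l).2).2 h1)⟩
  · intro h
    exact ⟨memA hj g, fun l => ⟨(gen_pu D.fa g (hw l).1).2 h.1,
      fun h1 => h.2 ((gen_pd D.fa g (hw l).2).1 h1)⟩⟩

theorem fxa : D.FX D.fa :=
  ⟨fun h => absurd ((D.lad 1 0 one_ne_zero).1 h) (not_lt.2 zero_le_one),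
    (D.lad 0 1 zero_ne_one).2 zero_lt_one⟩

theorem fyb : D.FY D.fb :=
  ⟨(D.lad 0 1 zero_ne_one).2 zero_lt_one,
    fun h => absurd ((D.lad 1 0 one_ne_zero).1 h) (not_lt.2 zero_le_one)⟩

theorem idx_inj {ι : Type} [Nonempty ι] {i i' : ℚ} {f f' : ι → R} (h : D.d i ∘ f = D.d i' ∘ f') :
    i = i' := by
  obtain ⟨k⟩ := (inferInstance : Nonempty ι)
  by_contra hne
  exact D.dif i i' (f k) (f' k) hne (congrFun h k)

theorem tup_inj {ι : Type} [Finite ι] {i i' : ℚ} {f f' : ι → R} (h : D.d i ∘ f = D.d i ∘ f') :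
    D.d i' ∘ f = D.d i' ∘ f' := by
  funext k
  have h1 := D.ind (Fin 2) (Qf.eq 0 1)
    (![Sum.inr (i, f k), Sum.inr (i, f' k)] : Fin 2 → D.M ⊕ (ℚ × R)) (mv1 i i') (by
      have hc : ∀ e ∈ ⋃ k', ix ((![Sum.inr (i, f k), Sum.inr (i, f' k)] :
          Fin 2 → D.M ⊕ (ℚ × R)) k'), e = i := by
        intro e he
        obtain ⟨k', hk'⟩ := mem_iUnion.1 he
        fin_cases k'
        · exact mem_singleton_iff.1 hk'
        · exact mem_singleton_iff.1 hk'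
      intro e he e' he' hee
      rw [hc e he, hc e' he'] at hee
      exact absurd hee (lt_irrefl _))
  have h2 : D.d i (f k) = D.d i (f' k) := congrFun h k
  have h3 : D.d (mv1 i i' i) (f k) = D.d (mv1 i i' i) (f' k) := h1.1 h2
  rw [JF_mv1] at h3
  exact h3

/-- indices with infinitely many elements between them -/
theorem not_eqv {J : Set ℚ} {x x' : α → V} {i i' : ℚ} (hi : i ∈ D.W) (hi' : i' ∈ D.W)
    (h1 : ∀ j, i < j → D.Φ x (D.d j ∘ D.fb)) (h2 : ∀ j < i', ¬ D.Φ x' (D.d j ∘ D.fb))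
    (hinf : (J ∩ Ioo i i').Infinite) : ¬ D.Eqv (D.A J) x x' := by
  intro hfin
  refine hinf ?_
  have h3 : (fun j => D.d j ∘ D.fb) '' (J ∩ Ioo i i') ⊆
      {y ∈ D.Y (D.A J) | ¬ (D.Φ x y ↔ D.Φ x' y)} := by
    rintro _ ⟨j, ⟨hj, hj1⟩, rfl⟩
    refine ⟨(memYo hj (fun l => ⟨(hi l).1.trans_lt hj1.1, hj1.2.trans_le (hi' l).2⟩) _).2 fyb, ?_⟩
    intro h4
    exact h2 j hj1.2 (h4.1 (h1 j hj1.1))
  exact (hfin.subset h3).of_finite_image fun j _ j' _ h => idx_inj h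

/-- the same kind -/
def Kd (D : Dat L V P R α β κ) (f f' : α → R) : Prop :=
  ∀ g, D.FY g → ((D.pu f g ↔ D.pu f' g) ∧ (D.pd f g ↔ D.pd f' g))

/-- blocks -/
structure Blk (D : Dat L V P R α β κ) (J B : Set ℚ) : Prop where
  fin : B.Finite
  sub : B ⊆ J
  win : B ⊆ D.Wo
  clo : ∀ i ∈ B, ∀ i' ∈ B, (J ∩ Ioo i i').Finite
  far1 : ∀ i ∈ B, ∀ i' ∈ J, i' ∈ D.W → i' ∉ B → i < i' → (J ∩ Ioo i i').Infinite
  far2 : ∀ i ∈ B, ∀ i' ∈ J, i' ∈ D.W → i' ∉ B → i' < i → (J ∩ Ioo i' i).Infinite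
  up : ∀ i ∈ B, (J ∩ Ioi i ∩ D.Wo).Infinite
  dn : ∀ i ∈ B, (J ∩ Iio i ∩ D.Wo).Infinite

/-- isolated indices -/
structure Isd (D : Dat L V P R α β κ) (J : Set ℚ) (i : ℚ) : Prop where
  mem : i ∈ J
  far1 : ∀ i' ∈ J, i' ∈ D.W → i < i' → (J ∩ Ioo i i').Infinite
  far2 : ∀ i' ∈ J, i' ∈ D.W → i' < i → (J ∩ Ioo i' i).Infinite

theorem eqv_iff {J B : Set ℚ} (hB : D.Blk J B) {i i' : ℚ} (hi : i ∈ B) (hi' : i' ∈ B)
    {f f' : α → R} : D.Eqv (D.A J) (D.d i ∘ f) (D.d i' ∘ f') ↔ D.Kd f f' := by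
  constructor
  · intro h
    by_contra hk
    unfold Kd at hk
    push Not at hk
    obtain ⟨g, hg, hk⟩ := hk
    by_cases hp : D.pu f g ↔ D.pu f' g
    · have hd : ¬ (D.pd f g ↔ D.pd f' g) := fun h1 => by
        rcases hk hp with h2 | h2
        · exact h2.2 (h1.1 h2.1)
        · exact h2.1 (h1.2 h2.2)
      obtain ⟨a, ha, hai, hai'⟩ : ∃ a ∈ B, a ≤ i ∧ a ≤ i' := by
        rcases le_total i i' with h1 | h1
        · exact ⟨i, hi, le_rfl, h1⟩
        · exact ⟨i', hi', h1, le_rfl⟩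
      have h3 : (fun j => D.d j ∘ g) '' (J ∩ Iio a ∩ D.Wo) ⊆
          {y ∈ D.Y (D.A J) | ¬ (D.Φ (D.d i ∘ f) y ↔ D.Φ (D.d i' ∘ f') y)} := by
        rintro _ ⟨j, ⟨⟨hj, hja⟩, hjw⟩, rfl⟩
        refine ⟨(memYo hj hjw _).2 hg, ?_⟩
        rw [gen_pd f g (lt_of_lt_of_le hja hai), gen_pd f' g (lt_of_lt_of_le hja hai')]
        exact hd
      exact hB.dn a ha ((h.subset h3).of_finite_image fun j _ j' _ h => idx_inj h)
    · obtain ⟨a, ha, hai, hai'⟩ : ∃ a ∈ B, i ≤ a ∧ i' ≤ a := by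
        rcases le_total i i' with h1 | h1
        · exact ⟨i', hi', h1, le_rfl⟩
        · exact ⟨i, hi, le_rfl, h1⟩
      have h3 : (fun j => D.d j ∘ g) '' (J ∩ Ioi a ∩ D.Wo) ⊆
          {y ∈ D.Y (D.A J) | ¬ (D.Φ (D.d i ∘ f) y ↔ D.Φ (D.d i' ∘ f') y)} := by
        rintro _ ⟨j, ⟨⟨hj, hja⟩, hjw⟩, rfl⟩
        refine ⟨(memYo hj hjw _).2 hg, ?_⟩
        rw [gen_pu f g (lt_of_le_of_lt hai hja), gen_pu f' g (lt_of_le_of_lt hai' hja)]
        exact hp
      exact hB.up a ha ((h.subset h3).of_finite_image fun j _ j' _ h => idx_inj h)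
  · intro hk
    let E : Set ℚ := (J ∩ Ioo i i') ∪ (J ∩ Ioo i' i) ∪ {i, i'} ∪ (range D.s ∪ range D.u)
    have hE : E.Finite := (((hB.clo i hi i' hi').union (hB.clo i' hi' i hi)).union
      ((finite_singleton i').insert i)).union ((finite_range _).union (finite_range _))
    have h1 : {y ∈ D.Y (D.A J) | ¬ (D.Φ (D.d i ∘ f) y ↔ D.Φ (D.d i' ∘ f') y)} ⊆
        (fun p : ℚ × (β → R) => D.d p.1 ∘ p.2) '' (E ×ˢ univ) := by
      rintro y ⟨hy, hne⟩
      obtain ⟨j, hj, hjw, g, rfl, -, -⟩ := memY hy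
      refine ⟨(j, g), ⟨?_, mem_univ _⟩, rfl⟩
      by_contra hjE
      have h2 : ∀ l, j ≠ D.s l := by
        rintro l rfl
        exact hjE (Or.inr (Or.inl ⟨l, rfl⟩))
      have h3 : ∀ l, j ≠ D.u l := by
        rintro l rfl
        exact hjE (Or.inr (Or.inr ⟨l, rfl⟩))
      have hjo : j ∈ D.Wo := fun l => ⟨lt_of_le_of_ne (hjw l).1 (h2 l).symm,
        lt_of_le_of_ne (hjw l).2 (h3 l)⟩
      have hg := (memYo hj hjo g).1 hy
      have h4 : j ≠ i := by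
        rintro rfl
        exact hjE (Or.inl (Or.inr (Or.inl rfl)))
      have h5 : j ≠ i' := by
        rintro rfl
        exact hjE (Or.inl (Or.inr (Or.inr rfl)))
      have h6 := hk g hg
      rcases lt_or_gt_of_ne h4 with h7 | h7 <;> rcases lt_or_gt_of_ne h5 with h8 | h8
      · rw [gen_pd f g h7, gen_pd f' g h8] at hne
        exact hne h6.2
      · exact hjE (Or.inl (Or.inl (Or.inr ⟨hj, h8, h7⟩)))
      · exact hjE (Or.inl (Or.inl (Or.inl ⟨hj, h7, h8⟩)))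
      · rw [gen_pu f g h7, gen_pu f' g h8] at hne
        exact hne h6.1
    exact ((hE.prod finite_univ).image _).subset h1

theorem eqv_refl {A : Set V} (x : α → V) : D.Eqv A x x := by
  have h : {y ∈ D.Y A | ¬ (D.Φ x y ↔ D.Φ x y)} = ∅ := by
    ext y
    simp
  unfold Eqv
  rw [h]
  exact finite_empty

theorem eqv_symm {A : Set V} {x x' : α → V} (h : D.Eqv A x x') : D.Eqv A x' x := by
  refine h.subset ?_
  rintro y ⟨hy, h1⟩
  exact ⟨hy, fun h2 => h1 h2.symm⟩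

/-- the class of an element at an isolated index -/
theorem cls_isd {J : Set ℚ} {i : ℚ} (hi : D.Isd J i) (hw : i ∈ D.W) {x : α → V}
    (hx : x ∈ D.X (D.A J)) {f : α → R} (hf : x = D.d i ∘ f) :
    (D.cls (D.A J) x).Finite ∧ 0 < (D.cls (D.A J) x).ncard ∧
      (D.cls (D.A J) x).ncard ≤ Nat.card (α → R) := by
  have hsub : D.cls (D.A J) x ⊆ range fun f : α → R => D.d i ∘ f := by
    rintro x' ⟨hx', he⟩
    obtain ⟨i', hi', hw', f', hf', h1, h2⟩ := memX hx'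
    obtain ⟨i1, hi1, hw1, f1, hf1, h3, h4⟩ := memX hx
    have h5 : i1 = i := idx_inj (hf1.symm.trans hf)
    subst h5
    rcases lt_trichotomy i1 i' with h | h | h
    · exact absurd he (not_eqv hw hw' h4 h1 (hi.far1 i' hi' hw' h))
    · subst h
      exact ⟨f', hf'.symm⟩
    · exact absurd (eqv_symm he) (not_eqv hw' hw h2 h3 (hi.far2 i' hi' hw' h))
  have hfin : (D.cls (D.A J) x).Finite := (finite_range _).subset hsub
  refine ⟨hfin, ?_, ?_⟩
  · rw [Set.ncard_pos hfin]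
    exact ⟨x, hx, eqv_refl x⟩
  · refine (Set.ncard_le_ncard hsub (finite_range _)).trans ?_
    rw [← image_univ]
    refine (Set.ncard_image_le finite_univ).trans ?_
    rw [Set.ncard_univ]

/-- the class of an element at an index of a block -/
theorem cls_blk {J B : Set ℚ} (hB : D.Blk J B) {i : ℚ} (hi : i ∈ B) {x : α → V}
    (hx : x ∈ D.X (D.A J)) {f : α → R} (hf : x = D.d i ∘ f) :
    (D.cls (D.A J) x).Finite ∧ ∃ w, 0 < w ∧ w ≤ Nat.card (α → R) ∧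
      (D.cls (D.A J) x).ncard = B.ncard * w := by
  classical
  let F : Set (α → R) := {f' | D.FX f' ∧ D.Kd f f'}
  have hcls : D.cls (D.A J) x = (fun p : ℚ × (α → R) => D.d p.1 ∘ p.2) '' (B ×ˢ F) := by
    ext x'
    constructor
    · rintro ⟨hx', he⟩
      obtain ⟨i', hi', hw', f', hf', h1, h2⟩ := memX hx'
      obtain ⟨i1, hi1, hw1, f1, hf1, h3, h4⟩ := memX hx
      have h5 : i1 = i := idx_inj (hf1.symm.trans hf)
      subst h5
      have h6 : i' ∈ B := by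
        by_contra hno
        rcases lt_trichotomy i1 i' with h | h | h
        · exact absurd he (not_eqv hw1 hw' h4 h1 (hB.far1 i1 hi i' hi' hw' hno h))
        · exact hno (h ▸ hi)
        · exact absurd (eqv_symm he) (not_eqv hw' hw1 h2 h3 (hB.far2 i1 hi i' hi' hw' hno h))
      rw [hf, hf', eqv_iff hB hi h6] at he
      rw [hf'] at hx'
      exact ⟨(i', f'), ⟨h6, (memXo (hB.sub h6) (hB.win h6) f').1 hx', he⟩, hf'.symm⟩
    · rintro ⟨⟨i', f'⟩, ⟨h1, h2, h3⟩, rfl⟩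
      refine ⟨(memXo (hB.sub h1) (hB.win h1) f').2 h2, ?_⟩
      rw [hf, eqv_iff hB hi h1]
      exact h3
  have hfin : (D.cls (D.A J) x).Finite := by
    rw [hcls]
    exact (hB.fin.prod (toFinite F)).image _
  refine ⟨hfin, ((fun f' : α → R => D.d i ∘ f') '' F).ncard, ?_, ?_, ?_⟩
  · rw [Set.ncard_pos (toFinite _)]
    rw [hf] at hx
    exact ⟨_, f, ⟨(memXo (hB.sub hi) (hB.win hi) f).1 hx, fun g _ => ⟨Iff.rfl, Iff.rfl⟩⟩, rfl⟩
  · refine (Set.ncard_image_le (toFinite F)).trans ?_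
    refine (Set.ncard_le_ncard (subset_univ F) finite_univ).trans ?_
    rw [Set.ncard_univ]
  · -- representatives
    have hrep : ∀ w ∈ (fun f' : α → R => D.d i ∘ f') '' F, ∃ f' ∈ F, D.d i ∘ f' = w := fun w hw =>
      hw
    have hne : Nonempty (α → R) := ⟨f⟩
    choose! r hr1 hr2 using hrep
    have h1 : D.cls (D.A J) x = (fun p : ℚ × (α → V) => D.d p.1 ∘ r p.2) ''
        (B ×ˢ ((fun f' : α → R => D.d i ∘ f') '' F)) := by
      rw [hcls]
      ext x'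
      constructor
      · rintro ⟨⟨i', f'⟩, ⟨h2, h3⟩, rfl⟩
        refine ⟨(i', D.d i ∘ f'), ⟨h2, ⟨f', h3, rfl⟩⟩, ?_⟩
        exact tup_inj (hr2 _ ⟨f', h3, rfl⟩)
      · rintro ⟨⟨i', w⟩, ⟨h2, h3⟩, rfl⟩
        exact ⟨(i', r w), ⟨h2, hr1 w h3⟩, rfl⟩
    rw [h1, Set.InjOn.ncard_image, Set.ncard_prod]
    rintro ⟨i1, w1⟩ ⟨h2, h3⟩ ⟨i2, w2⟩ ⟨h4, h5⟩ h6
    have h7 : i1 = i2 := idx_inj h6
    subst h7
    have h8 : D.d i ∘ r w1 = D.d i ∘ r w2 := tup_inj h6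
    rw [hr2 w1 h3, hr2 w2 h5] at h8
    rw [h8]

/-- the decoder -/
def Dec (D : Dat L V P R α β κ) (A : Set V) (p : ℕ) : Prop :=
  ∃ x ∈ D.X A, (D.cls A x).Finite ∧ p ∣ (D.cls A x).ncard

theorem dec {J : Set ℚ} {Z : Set ℕ} {B : ℕ → Set ℚ} (hB : ∀ k ∈ Z, D.Blk J (B k))
    (hI : ∀ i ∈ J, i ∈ D.W → D.Isd J i ∨ ∃ k ∈ Z, i ∈ B k)
    (hp : ∀ k, (B k).ncard.Prime) (p : ℕ) (hpp : p.Prime) (hlt : Nat.card (α → R) < p) :
    D.Dec (D.A J) p ↔ ∃ k ∈ Z, (B k).ncard = p := by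
  constructor
  · rintro ⟨x, hx, hfin, hdv⟩
    obtain ⟨i, hi, hw, f, hf, h1, h2⟩ := memX hx
    rcases hI i hi hw with h | ⟨k, hk, hik⟩
    · obtain ⟨h3, h4, h5⟩ := cls_isd h hw hx hf
      exact absurd (Nat.le_of_dvd h4 hdv) (by omega)
    · obtain ⟨h3, w, h4, h5, h6⟩ := cls_blk (hB k hk) hik hx hf
      rw [h6] at hdv
      refine ⟨k, hk, ?_⟩
      rcases (Nat.Prime.dvd_mul hpp).1 hdv with h | h
      · exact ((Nat.prime_dvd_prime_iff_eq hpp (hp k)).1 h).symm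
      · exact absurd (Nat.le_of_dvd h4 h) (by omega)
  · rintro ⟨k, hk, rfl⟩
    have hne : (B k).Nonempty := by
      rw [← Set.ncard_pos (hB k hk).fin]
      exact (hp k).pos
    obtain ⟨i, hi⟩ := hne
    have hx : D.d i ∘ D.fa ∈ D.X (D.A J) := (memXo ((hB k hk).sub hi) ((hB k hk).win hi) _).2 fxa
    obtain ⟨h3, w, h4, h5, h6⟩ := cls_blk (hB k hk) hi hx rfl
    exact ⟨_, hx, h3, h6 ▸ Dvd.intro _ rfl⟩

end Dat

end EAP
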