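import Pool.Agent.EAP.CLS

/-!
# EAP [IDX]: the sets of indices
-/

set_option autoImplicit false
set_option linter.unusedVariables false
set_option linter.unusedSectionVars false

namespace EAP

open Set

/-- left end of the piece `k` -/
def xk (k : ℕ) : ℚ := 1 - 1 / (k + 1)

theorem xk_nonneg (k : ℕ) : 0 ≤ xk k := by
  unfold xk
  have h : (1 : ℚ) / (k + 1) ≤ 1 := by
    rw [div_le_one (by positivity)]
    have : (0 : ℚ) ≤ k := Nat.cast_nonneg k
    linarith
  linarith

theorem xk_lt_one (k : ℕ) : xk k < 1 := by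
  unfold xk
  have h : (0 : ℚ) < 1 / (k + 1) := by positivity
  linarith

theorem xk_mono : StrictMono xk := by
  refine strictMono_nat_of_lt_succ fun k => ?_
  unfold xk
  have h : (1 : ℚ) / (((k + 1 : ℕ) : ℚ) + 1) < 1 / (k + 1) := by
    apply one_div_lt_one_div_of_lt
    · positivity
    · push_cast
      linarith
  linarith

/-- middle of the piece `k` -/
def mk (k : ℕ) : ℚ := (xk k + xk (k + 1)) / 2

theorem xk_lt_mk (k : ℕ) : xk k < mk k := by
  have := xk_mono (Nat.lt_succ_self k)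
  unfold mk
  have h : xk k < xk (k + 1) := this
  linarith

theorem mk_lt_xk (k : ℕ) : mk k < xk (k + 1) := by
  have h : xk k < xk (k + 1) := xk_mono (Nat.lt_succ_self k)
  unfold mk
  linarith

/-- the block `k`, with `p` points -/
def bk (k p : ℕ) : Set ℚ := range fun r : Fin p => mk k + (xk (k + 1) - mk k) * ((r + 1) / (p + 1))

theorem bk_mem {k p : ℕ} {i : ℚ} (hi : i ∈ bk k p) : mk k < i ∧ i < xk (k + 1) := by
  obtain ⟨r, rfl⟩ := hi
  have h1 : 0 < xk (k + 1) - mk k := sub_pos.2 (mk_lt_xk k)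
  have h2 : (0 : ℚ) < ((r : ℕ) + 1) / (p + 1) := by positivity
  have h3 : (((r : ℕ) : ℚ) + 1) / (p + 1) < 1 := by
    rw [div_lt_one (by positivity)]
    have : ((r : ℕ) : ℚ) < p := by exact_mod_cast r.2
    linarith
  constructor
  · have := mul_pos h1 h2
    show mk k < mk k + (xk (k + 1) - mk k) * (((r : ℕ) + 1) / (p + 1))
    linarith
  · show mk k + (xk (k + 1) - mk k) * (((r : ℕ) + 1) / (p + 1)) < xk (k + 1)
    nlinarith

theorem bk_card (k p : ℕ) : (bk k p).ncard = p := by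
  unfold bk
  rw [← image_univ, Set.InjOn.ncard_image, Set.ncard_univ, Nat.card_eq_fintype_card,
    Fintype.card_fin]
  intro r _ r' _ h
  have h1 : 0 < xk (k + 1) - mk k := sub_pos.2 (mk_lt_xk k)
  have h2 : (0 : ℚ) < (p : ℚ) + 1 := by positivity
  have h3 : (xk (k + 1) - mk k) * ((((r : ℕ) : ℚ) + 1) / (p + 1)) =
      (xk (k + 1) - mk k) * ((((r' : ℕ) : ℚ) + 1) / (p + 1)) := by
    have := h
    simp only at this
    linarith
  have h4 := mul_left_cancel₀ h1.ne' h3
  rw [div_left_inj' h2.ne'] at h4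
  apply Fin.ext
  have h5 : ((r : ℕ) : ℚ) = ((r' : ℕ) : ℚ) := by linarith
  exact_mod_cast h5

/-- the set of indices for `Z` -/
def Jz (N : ℕ) (p : ℕ → ℕ) (Z : Set ℕ) : Set ℚ :=
  (range fun l : Fin N => ((l : ℕ) : ℚ) - N) ∪ (range fun l : Fin N => ((l : ℕ) : ℚ) + 1) ∪
    {i | ∃ k, xk k < i ∧ i < mk k} ∪ {i | ∃ k ∈ Z, i ∈ bk k (p k)}

theorem Jz_piece {N : ℕ} {p : ℕ → ℕ} {Z : Set ℕ} {i : ℚ} (hi : i ∈ Jz N p Z) (h0 : 0 ≤ i)
    (h1 : i < 1) : (∃ k, xk k < i ∧ i < mk k) ∨ ∃ k ∈ Z, i ∈ bk k (p k) := by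
  rcases hi with ((⟨l, rfl⟩ | ⟨l, rfl⟩) | h) | h
  · exfalso
    have : ((l : ℕ) : ℚ) < N := by exact_mod_cast l.2
    have h2 : (0 : ℚ) ≤ ((l : ℕ) : ℚ) - N := h0
    linarith
  · exfalso
    have : (0 : ℚ) ≤ ((l : ℕ) : ℚ) := Nat.cast_nonneg _
    have h2 : ((l : ℕ) : ℚ) + 1 < 1 := h1
    linarith
  · exact Or.inl h
  · exact Or.inr h

theorem inf_dense {J : Set ℚ} {a b : ℚ} (hab : a < b) (h : Ioo a b ⊆ J) {c e : ℚ} (hc : c ≤ a)
    (he : b ≤ e) : (J ∩ Ioo c e).Infinite := by
  refine (Ioo_infinite hab).mono fun i hi => ⟨h hi, hc.trans_lt hi.1, hi.2.trans_le he⟩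

theorem Jz_dense {N : ℕ} {p : ℕ → ℕ} {Z : Set ℕ} (k : ℕ) : Ioo (xk k) (mk k) ⊆ Jz N p Z :=
  fun _ hi => Or.inl (Or.inr ⟨k, hi.1, hi.2⟩)

/-- between different pieces, or inside a dense piece, there are infinitely many indices -/
theorem Jz_inf {N : ℕ} {p : ℕ → ℕ} {Z : Set ℕ} {i i' : ℚ} (k : ℕ) (h : i < i') (h1 : i < mk k)
    (h2 : xk k < i') : (Jz N p Z ∩ Ioo i i').Infinite := by
  have h3 : max i (xk k) < min i' (mk k) :=
    max_lt (lt_min h h1) (lt_min h2 (xk_lt_mk k))
  exact inf_dense h3 (fun e he => Jz_dense k ⟨(le_max_right _ _).trans_lt he.1,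
    he.2.trans_le (min_le_right _ _)⟩) (le_max_left _ _) (min_le_left _ _)

theorem xk_large {i : ℚ} (hi : i < 1) : ∃ k, i < xk k := by
  obtain ⟨k, hk⟩ := exists_nat_one_div_lt (sub_pos.2 hi)
  refine ⟨k, ?_⟩
  unfold xk
  linarith

variable {L : FirstOrder.Language.{0, 0}} {V P R α β : Type}

/-- the decoding for the sets of indices -/
theorem idx (N : ℕ) (hN : 0 < N) (D : Dat L V P R α β (Fin N)) [Finite P] [Finite R] [Finite α]
    [Finite β] [Nonempty α] [Nonempty β] (hs : D.s = fun l : Fin N => ((l : ℕ) : ℚ) - N)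
    (hu : D.u = fun l : Fin N => ((l : ℕ) : ℚ) + 1) (p : ℕ → ℕ) (hp : ∀ k, (p k).Prime) (Z : Set ℕ) (q : ℕ)
    (hq : q.Prime) (hlt : Nat.card (α → R) < q) :
    D.Dec (D.A (Jz N p Z)) q ↔ ∃ k ∈ Z, p k = q := by
  have : Nonempty (Fin N) := ⟨⟨0, hN⟩⟩
  -- the window
  have hW : ∀ i, i ∈ D.W → -1 ≤ i ∧ i ≤ 1 := by
    intro i hi
    constructor
    · have h := (hi ⟨N - 1, by omega⟩).1
      rw [hs] at h
      have h2 : (((N - 1 : ℕ) : ℚ)) - N = -1 := by
        rw [Nat.cast_sub (by omega)]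
        push_cast
        ring
      have h3 : (((N - 1 : ℕ) : ℚ)) - N ≤ i := h
      rwa [h2] at h3
    · have h := (hi ⟨0, hN⟩).2
      rw [hu] at h
      have h2 : i ≤ ((0 : ℕ) : ℚ) + 1 := h
      simpa using h2
  have hWo : ∀ i : ℚ, 0 ≤ i → i < 1 → i ∈ D.Wo := by
    intro i h0 h1 l
    rw [hs, hu]
    have h2 : ((l : ℕ) : ℚ) < N := by exact_mod_cast l.2
    have h3 : (0 : ℚ) ≤ ((l : ℕ) : ℚ) := Nat.cast_nonneg _
    constructor
    · show ((l : ℕ) : ℚ) - N < i
      linarith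
    · show i < ((l : ℕ) : ℚ) + 1
      linarith
  -- elements of the window
  have hcase : ∀ i ∈ Jz N p Z, i ∈ D.W → i = -1 ∨ i = 1 ∨ (∃ k, xk k < i ∧ i < mk k) ∨
      ∃ k ∈ Z, i ∈ bk k (p k) := by
    intro i hi hw
    rcases hi with ((⟨l, rfl⟩ | ⟨l, rfl⟩) | h) | h
    · left
      have h1 := (hW _ hw).1
      have h2 : ((l : ℕ) : ℚ) + 1 ≤ N := by exact_mod_cast l.2
      have h3 : (-1 : ℚ) ≤ ((l : ℕ) : ℚ) - N := h1
      show ((l : ℕ) : ℚ) - N = -1
      linarith
    · right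
      left
      have h1 := (hW _ hw).2
      have h2 : (0 : ℚ) ≤ ((l : ℕ) : ℚ) := Nat.cast_nonneg _
      have h3 : ((l : ℕ) : ℚ) + 1 ≤ 1 := h1
      show ((l : ℕ) : ℚ) + 1 = 1
      linarith
    · exact Or.inr (Or.inr (Or.inl h))
    · exact Or.inr (Or.inr (Or.inr h))
  have h01 : ∀ k i, xk k < i → i < xk (k + 1) → 0 ≤ i ∧ i < 1 := fun k i h1 h2 =>
    ⟨(xk_nonneg k).trans h1.le, h2.trans (xk_lt_one _)⟩
  have hbk : ∀ k i, i ∈ bk k (p k) → 0 ≤ i ∧ i < 1 := fun k i h =>
    h01 k i ((xk_lt_mk k).trans (bk_mem h).1) (bk_mem h).2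
  -- comparison of a member of a block with other members
  have hfar1 : ∀ k i, i ∈ bk k (p k) → ∀ i' ∈ Jz N p Z, i' ∈ D.W → i' ∉ bk k (p k) → i < i' →
      (Jz N p Z ∩ Ioo i i').Infinite := by
    intro k i hi i' hi' hw hno hlt
    have h1 : xk (k + 1) < i' := by
      rcases hcase i' hi' hw with rfl | rfl | ⟨k', h1, h2⟩ | ⟨k', h1, h2⟩
      · have := (hbk k i hi).1
        linarith
      · exact xk_lt_one _
      · by_contra h3
        have h3 := not_lt.1 h3
        have h4 : xk k' < xk (k + 1) := h1.trans_le h3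
        have h5 : k' ≤ k := Nat.lt_succ_iff.1 (xk_mono.lt_iff_lt.1 h4)
        have h6 : mk k' ≤ mk k := by
          rcases Nat.eq_or_lt_of_le h5 with h | h
          · rw [h]
          · exact (mk_lt_xk k').le.trans ((xk_mono.monotone (Nat.succ_le_of_lt h)).trans
              (xk_lt_mk k).le)
        have := (bk_mem hi).1
        linarith
      · have h3 := bk_mem h2
        rcases lt_trichotomy k' k with h | h | h
        · have h4 : xk (k' + 1) ≤ xk k := xk_mono.monotone (Nat.succ_le_of_lt h)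
          have h5 := (bk_mem hi).1
          have h6 := xk_lt_mk k
          linarith [h3.2]
        · subst h
          exact absurd h2 hno
        · exact (xk_mono.monotone (Nat.succ_le_of_lt h)).trans_lt ((xk_lt_mk k').trans h3.1)
    exact Jz_inf (k + 1) hlt ((bk_mem hi).2.trans (xk_lt_mk _)) h1
  have hfar2 : ∀ k i, i ∈ bk k (p k) → ∀ i' ∈ Jz N p Z, i' ∈ D.W → i' ∉ bk k (p k) → i' < i →
      (Jz N p Z ∩ Ioo i' i).Infinite := by
    intro k i hi i' hi' hw hno hlt
    have h1 : i' < mk k := by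
      rcases hcase i' hi' hw with rfl | rfl | ⟨k', h1, h2⟩ | ⟨k', h1, h2⟩
      · have := xk_nonneg k
        have := xk_lt_mk k
        linarith
      · have := (hbk k i hi).2
        linarith
      · by_contra h3
        have h3 := not_lt.1 h3
        have h4 : k ≤ k' := by
          by_contra h5
          have h6 : xk (k' + 1) ≤ xk k := xk_mono.monotone (Nat.succ_le_of_lt (not_le.1 h5))
          have := mk_lt_xk k'
          have := xk_lt_mk k
          linarith
        rcases Nat.eq_or_lt_of_le h4 with h | h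
        · subst h
          linarith
        · have h6 : xk (k + 1) ≤ xk k' := xk_mono.monotone (Nat.succ_le_of_lt h)
          have := (bk_mem hi).2
          linarith
      · have h3 := bk_mem h2
        rcases lt_trichotomy k' k with h | h | h
        · have h4 : xk (k' + 1) ≤ xk k := xk_mono.monotone (Nat.succ_le_of_lt h)
          have h6 := xk_lt_mk k
          linarith [h3.2]
        · subst h
          exact absurd h2 hno
        · have h4 : xk (k + 1) ≤ xk k' := xk_mono.monotone (Nat.succ_le_of_lt h)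
          have h5 := (bk_mem hi).2
          have h6 := xk_lt_mk k'
          linarith [h3.1]
    exact Jz_inf k hlt h1 ((xk_lt_mk k).trans (bk_mem hi).1)
  have hB : ∀ k ∈ Z, D.Blk (Jz N p Z) (bk k (p k)) := by
    intro k hk
    refine ⟨finite_range _, fun i hi => Or.inr ⟨k, hk, hi⟩,
      fun i hi => hWo i (hbk k i hi).1 (hbk k i hi).2, ?_, hfar1 k, hfar2 k, ?_, ?_⟩
    · intro i hi i' hi'
      refine (finite_range (fun r : Fin (p k) =>
        mk k + (xk (k + 1) - mk k) * (((r : ℕ) + 1) / (p k + 1) : ℚ))).subset ?_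
      rintro e ⟨he, h1, h2⟩
      have h3 : mk k < e := (bk_mem hi).1.trans h1
      have h4 : e < xk (k + 1) := h2.trans (bk_mem hi').2
      rcases Jz_piece he (((xk_nonneg k).trans (xk_lt_mk k).le).trans h3.le)
        (h4.trans (xk_lt_one _)) with ⟨k', h5, h6⟩ | ⟨k', h5, h6⟩
      · exfalso
        rcases lt_trichotomy k' k with h | h | h
        · have h7 : xk (k' + 1) ≤ xk k := xk_mono.monotone (Nat.succ_le_of_lt h)
          have := mk_lt_xk k'
          have := xk_lt_mk k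
          linarith
        · subst h
          linarith
        · have h7 : xk (k + 1) ≤ xk k' := xk_mono.monotone (Nat.succ_le_of_lt h)
          linarith
      · have h8 := bk_mem h6
        rcases lt_trichotomy k' k with h | h | h
        · exfalso
          have h7 : xk (k' + 1) ≤ xk k := xk_mono.monotone (Nat.succ_le_of_lt h)
          have := xk_lt_mk k
          linarith [h8.2]
        · subst h
          exact h6
        · exfalso
          have h7 : xk (k + 1) ≤ xk k' := xk_mono.monotone (Nat.succ_le_of_lt h)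
          have := xk_lt_mk k'
          linarith [h8.1]
    · intro i hi
      refine (Ioo_infinite (xk_lt_mk (k + 1))).mono ?_
      rintro e ⟨he1, he2⟩
      have h3 := h01 (k + 1) e he1 (he2.trans (mk_lt_xk _))
      exact ⟨⟨Jz_dense (k + 1) ⟨he1, he2⟩, (bk_mem hi).2.trans he1⟩, hWo e h3.1 h3.2⟩
    · intro i hi
      refine (Ioo_infinite (xk_lt_mk k)).mono ?_
      rintro e ⟨he1, he2⟩
      have h3 := h01 k e he1 (he2.trans (mk_lt_xk _))
      exact ⟨⟨Jz_dense k ⟨he1, he2⟩, he2.trans (bk_mem hi).1⟩, hWo e h3.1 h3.2⟩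
  have hI : ∀ i ∈ Jz N p Z, i ∈ D.W → D.Isd (Jz N p Z) i ∨ ∃ k ∈ Z, i ∈ bk k (p k) := by
    intro i hi hw
    -- larger members of the window
    have hpos : ∀ i' ∈ Jz N p Z, i' ∈ D.W → i' = -1 ∨ 0 < i' := by
      intro i' hi' hw'
      rcases hcase i' hi' hw' with rfl | rfl | ⟨k', h1, h2⟩ | ⟨k', h1, h2⟩
      · exact Or.inl rfl
      · exact Or.inr one_pos
      · exact Or.inr ((xk_nonneg k').trans_lt h1)
      · exact Or.inr ((xk_nonneg k').trans_lt ((xk_lt_mk k').trans (bk_mem h2).1))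
    rcases hcase i hi hw with rfl | rfl | ⟨k, h1, h2⟩ | h
    · refine Or.inl ⟨hi, fun i' hi' hw' hlt => ?_, fun i' hi' hw' hlt => ?_⟩
      · have h3 : 0 < i' := (hpos i' hi' hw').resolve_left hlt.ne'
        have h4 : xk 0 = 0 := by
          unfold xk
          norm_num
        exact Jz_inf 0 hlt (by have := xk_lt_mk 0; linarith) (by rw [h4]; exact h3)
      · exact absurd (hW i' hw').1 (not_le.2 hlt)
    · refine Or.inl ⟨hi, fun i' hi' hw' hlt => ?_, fun i' hi' hw' hlt => ?_⟩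
      · exact absurd (hW i' hw').2 (not_le.2 hlt)
      · obtain ⟨k, hk⟩ := xk_large hlt
        exact Jz_inf k hlt (hk.trans (xk_lt_mk k)) (xk_lt_one k)
    · refine Or.inl ⟨hi, fun i' hi' hw' hlt => ?_, fun i' hi' hw' hlt => ?_⟩
      · exact Jz_inf k hlt h2 (h1.trans hlt)
      · exact Jz_inf k hlt (hlt.trans h2) h1
    · exact Or.inr h
  rw [Dat.dec hB hI (fun k => by rw [bk_card]; exact hp k) q hq hlt]
  simp only [bk_card]

end EAP
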