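import Pool.Agent.ORD.QFC

/-!
# EAP [JF]: sets defined by a minimal ladder contain only tuples at one index
-/

set_option autoImplicit false
set_option linter.unusedVariables false

namespace EAP

open Set ORD

variable {L : FirstOrder.Language.{0, 0}} {V P R α β ι κ : Type}

/-- ladders of all finite lengths -/
def Ldr (φ : (α → V) → (β → V) → Prop) : Prop :=
  ∀ N : ℕ, ∃ (a : ℕ → α → V) (b : ℕ → β → V),
    ∀ i j, i < N → j < N → i ≠ j → (φ (a i) (b j) ↔ i < j)

/-- the relation defined by a quantifier free formula with parameters -/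
def Rf (S : L.Structure V) (c : P → V) (q : Qf L (P ⊕ (α ⊕ β))) (x : α → V) (y : β → V) : Prop :=
  q.Tr S (Sum.elim c (Sum.elim x y))

/-- the value of a term: an element of `M`, or an element of the sequence -/
def ev {M : Set V} (d : ℚ → R → V) : M ⊕ (ℚ × R) → V := Sum.elim Subtype.val fun p => d p.1 p.2

/-- other indices -/
def mv {M : Set V} (σ : ℚ → ℚ) : M ⊕ (ℚ × R) → M ⊕ (ℚ × R) := Sum.map id fun p => (σ p.1, p.2)

/-- the index of a term -/
def ix {M : Set V} : M ⊕ (ℚ × R) → Set ℚ := Sum.elim (fun _ => ∅) fun p => {p.1}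

/-- quantifier free indiscernible over `M` -/
def Indc (S : L.Structure V) (M : Set V) (d : ℚ → R → V) : Prop :=
  ∀ (ι : Type) [Finite ι] (q : Qf L ι) (s : ι → M ⊕ (ℚ × R)) (σ : ℚ → ℚ),
    StrictMonoOn σ (⋃ i, ix (s i)) → (q.Tr S (ev d ∘ s) ↔ q.Tr S (ev d ∘ mv σ ∘ s))

/-- no quantifier free formula with less than `N` variables and with any parameters has ladders -/
def Mnl (S : L.Structure V) (N : ℕ) : Prop :=
  ∀ (P' α' β' : Type) [Finite P'] [Finite α'] [Finite β'] (q : Qf L (P' ⊕ (α' ⊕ β')))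
    (c : P' → V), Nat.card α' + Nat.card β' < N → ¬ Ldr (Rf S c q)

theorem JF_up (lo hi : ℚ) (h : lo < hi) :
    ∃ g : ℕ → ℚ, (∀ k, lo < g k ∧ g k < hi) ∧ StrictMono g := by
  refine ⟨fun k => hi - (hi - lo) / (k + 2), fun k => ?_, ?_⟩
  · have h1 : (0 : ℚ) < hi - lo := sub_pos.2 h
    have h2 : (0 : ℚ) < (k : ℚ) + 2 := by positivity
    have h3 : 0 < (hi - lo) / ((k : ℚ) + 2) := div_pos h1 h2
    have h4 : (hi - lo) / ((k : ℚ) + 2) < hi - lo := by
      rw [div_lt_iff₀ h2]
      have : (1 : ℚ) < (k : ℚ) + 2 := by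
        have : (0 : ℚ) ≤ (k : ℚ) := Nat.cast_nonneg k
        linarith
      nlinarith
    constructor <;> linarith
  · intro k l hkl
    have h1 : (0 : ℚ) < hi - lo := sub_pos.2 h
    have h2 : (0 : ℚ) < (k : ℚ) + 2 := by positivity
    have h3 : ((k : ℚ) + 2) < (l : ℚ) + 2 := by
      have : (k : ℚ) < (l : ℚ) := by exact_mod_cast hkl
      linarith
    have h4 : (hi - lo) / ((l : ℚ) + 2) < (hi - lo) / ((k : ℚ) + 2) :=
      div_lt_div_of_pos_left h1 h2 h3
    show hi - (hi - lo) / ((k : ℚ) + 2) < hi - (hi - lo) / ((l : ℚ) + 2)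
    linarith

theorem JF_down (lo hi : ℚ) (h : lo < hi) :
    ∃ g : ℕ → ℚ, (∀ k, lo < g k ∧ g k < hi) ∧ StrictAnti g := by
  obtain ⟨g, h1, h2⟩ := JF_up (-hi) (-lo) (neg_lt_neg h)
  refine ⟨fun k => - g k, fun k => ?_, fun k l hkl => ?_⟩
  · have := h1 k
    constructor <;> linarith [this.1, this.2]
  · exact neg_lt_neg (h2 hkl)

/-- there are indices at which the value changes -/
theorem JF_change (I : Set ℚ) (hI : I.Finite) (w : ℚ → Prop) (v : Prop)
    (hw : ∀ j j', j < j' → (∀ i ∈ I, ¬ (j ≤ i ∧ i ≤ j')) → (w j ↔ w j'))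
    (j j' : ℚ) (hjj : j < j') (hj : j ∉ I) (hj' : j' ∉ I) (h1 : w j ↔ v) (h2 : w j' ↔ ¬ v) :
    ∃ i ∈ I, ∃ lo hi, j ≤ lo ∧ lo < i ∧ i < hi ∧ hi ≤ j' ∧ (∀ e ∈ I, lo < e → e < hi → e = i) ∧
      (∀ e, lo < e → e < i → (w e ↔ v)) ∧ ∀ e, i < e → e < hi → (w e ↔ ¬ v) := by
  classical
  obtain ⟨n, hn⟩ : ∃ n, (I ∩ Ioo j j').ncard = n := ⟨_, rfl⟩
  induction n using Nat.strong_induction_on generalizing j with
  | _ n ih =>
    by_cases he : (I ∩ Ioo j j') = ∅
    · exfalso
      have h3 := hw j j' hjj fun i hi h4 => by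
        have h5 : i ∈ I ∩ Ioo j j' := by
          refine ⟨hi, lt_of_le_of_ne h4.1 ?_, lt_of_le_of_ne h4.2 ?_⟩
          · rintro rfl
            exact hj hi
          · rintro rfl
            exact hj' hi
        rw [he] at h5
        exact h5
      rw [h1, h2] at h3
      by_cases hv : v
      · exact (h3.1 hv) hv
      · exact hv (h3.2 hv)
    · obtain ⟨i, hi, him⟩ := Set.exists_min_image (I ∩ Ioo j j') id (hI.inter_of_left _)
        (nonempty_iff_ne_empty.2 he)
      -- a point above `i`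
      obtain ⟨m, hm1, hm2, hm3⟩ : ∃ m, i < m ∧ m < j' ∧ ∀ e ∈ I, i < e → m < e := by
        obtain ⟨a, ha, ham⟩ := Set.exists_min_image ((I ∩ Ioi i) ∪ {j'}) id
          ((hI.inter_of_left _).union (finite_singleton j')) ⟨j', Or.inr rfl⟩
        have ha1 : i < a := by
          rcases ha with ha | ha
          · exact ha.2
          · rw [mem_singleton_iff.1 ha]
            exact hi.2.2
        obtain ⟨m, hm1, hm2⟩ := exists_between ha1
        exact ⟨m, hm1, hm2.trans_le (ham j' (Or.inr rfl)), fun e he1 he2 =>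
          hm2.trans_le (ham e (Or.inl ⟨he1, he2⟩))⟩
      have hmI : m ∉ I := fun h => lt_irrefl m (hm3 m h hm1)
      by_cases hv : w m ↔ v
      · have hlt : (I ∩ Ioo m j').ncard < n := by
          rw [← hn]
          refine Set.ncard_lt_ncard ?_ (hI.inter_of_left _)
          constructor
          · rintro e ⟨he1, he2⟩
            exact ⟨he1, hi.2.1.trans (hm1.trans he2.1), he2.2⟩
          · intro h
            have := h hi
            exact absurd this.2.1 (not_lt.2 hm1.le)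
        obtain ⟨i', hi', lo, hi1, h3, h4, h5, h6, h7, h8, h9⟩ := ih _ hlt m hm2 hmI hv rfl
        exact ⟨i', hi', lo, hi1, (hi.2.1.trans hm1).le.trans h3, h4, h5, h6, h7, h8, h9⟩
      · have hv' : w m ↔ ¬ v := by tauto
        refine ⟨i, hi.1, j, m, le_rfl, hi.2.1, hm1, hm2.le, ?_, ?_, ?_⟩
        · intro e he1 he2 he3
          by_contra hne
          rcases lt_or_gt_of_ne hne with h | h
          · exact absurd (him e ⟨he1, he2, he3.trans hm2⟩) (not_le.2 h)
          · exact absurd (hm3 e he1 h) (not_lt.2 he3.le)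
        · intro e he1 he2
          rw [← h1]
          refine (hw j e he1 ?_).symm
          rintro i' hi' ⟨h3, h4⟩
          have h5 : j < i' := lt_of_le_of_ne h3 (by rintro rfl; exact hj hi')
          have h6 := him i' ⟨hi', h5, (h4.trans_lt he2).trans hi.2.2⟩
          exact absurd (h4.trans_lt he2) (not_lt.2 h6)
        · intro e he1 he2
          rw [← hv']
          refine hw e m he2 ?_
          rintro i' hi' ⟨h3, h4⟩
          exact absurd (hm3 i' hi' (he1.trans_le h3)) (not_lt.2 h4)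

section

variable {S : L.Structure V} {M : Set V} {d : ℚ → R → V}

/-- the terms of a triple -/
def trm {M : Set V} (c : P → M) (t : α → M ⊕ (ℚ × R)) (b : β → R) (j : ℚ) :
    P ⊕ (α ⊕ β) → M ⊕ (ℚ × R) :=
  Sum.elim (fun p => Sum.inl (c p)) (Sum.elim t fun k => Sum.inr (j, b k))

theorem JF_trm (c : P → M) (t : α → M ⊕ (ℚ × R)) (b : β → R) (j : ℚ)
    (q : Qf L (P ⊕ (α ⊕ β))) :
    Rf S (fun p => (c p : V)) q (ev d ∘ t) (d j ∘ b) ↔ q.Tr S (ev d ∘ trm c t b j) := by
  have h : ev d ∘ trm c t b j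
      = Sum.elim (fun p => (c p : V)) (Sum.elim (ev d ∘ t) (d j ∘ b)) := by
    funext k
    rcases k with k | k | k <;> rfl
  rw [h]
  exact Iff.rfl

/-- the indiscernibility for triples -/
theorem JF_ind (hI : Indc S M d) [Finite P] [Finite α] [Finite β] (c : P → M)
    (t : α → M ⊕ (ℚ × R)) (b : β → R) (j : ℚ) (q : Qf L (P ⊕ (α ⊕ β))) (σ : ℚ → ℚ)
    (hσ : StrictMonoOn σ (insert j (⋃ k, ix (t k)))) :
    Rf S (fun p => (c p : V)) q (ev d ∘ t) (d j ∘ b) ↔
      Rf S (fun p => (c p : V)) q (ev d ∘ mv σ ∘ t) (d (σ j) ∘ b) := by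
  rw [JF_trm, JF_trm]
  have h1 := hI _ q (trm c t b j) σ (hσ.mono (by
    intro e he
    obtain ⟨k, hk⟩ := mem_iUnion.1 he
    rcases k with k | k | k
    · exact absurd hk (notMem_empty _)
    · exact Or.inr (mem_iUnion.2 ⟨k, hk⟩)
    · exact Or.inl hk))
  have h2 : ev d ∘ mv σ ∘ trm c t b j = ev d ∘ trm c (mv σ ∘ t) b (σ j) := by
    funext k
    rcases k with k | k | k <;> rfl
  rw [h1, h2]


theorem JF_fin [Finite α] (t : α → M ⊕ (ℚ × R)) : (⋃ k, ix (t k)).Finite := by
  refine finite_iUnion fun k => ?_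
  rcases t k with x | x
  · exact finite_empty
  · exact finite_singleton _

open Classical in
/-- move the index `i` to `r` -/
noncomputable def mv1 (i r : ℚ) : ℚ → ℚ := Function.update id i r

theorem JF_mv1 (i r : ℚ) : mv1 i r i = r := by
  classical
  unfold mv1
  exact Function.update_self ..

theorem JF_mv1' {i r e : ℚ} (h : e ≠ i) : mv1 i r e = e := by
  classical
  unfold mv1
  rw [Function.update_of_ne h]
  rfl

/-- local moves -/
theorem JF_move (hI : Indc S M d) [Finite P] [Finite α] [Finite β] (c : P → M)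
    (t : α → M ⊕ (ℚ × R)) (b : β → R) (q : Qf L (P ⊕ (α ⊕ β))) (v : Prop)
    {lo i hi : ℚ} (hlo : lo < i) (hhi : i < hi)
    (hI1 : ∀ e ∈ ⋃ k, ix (t k), lo < e → e < hi → e = i)
    (h1 : ∀ e, lo < e → e < i → (Rf S (fun p => (c p : V)) q (ev d ∘ t) (d e ∘ b) ↔ v))
    (h2 : ∀ e, i < e → e < hi → (Rf S (fun p => (c p : V)) q (ev d ∘ t) (d e ∘ b) ↔ ¬ v))
    {r j : ℚ} (hr1 : lo < r) (hr2 : r < hi) (hj1 : lo < j) (hj2 : j < hi) (hrj : r ≠ j) :
    (Rf S (fun p => (c p : V)) q (ev d ∘ mv (mv1 i r) ∘ t) (d j ∘ b) ↔ (if j < r then v else ¬ v)) := by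
  classical
  -- the index `j0` on the right side of `i`
  obtain ⟨j0, hj01, hj02, hji, hv⟩ : ∃ j0, lo < j0 ∧ j0 < hi ∧ j0 ≠ i ∧ (j0 < i ↔ j < r) := by
    by_cases hjr : j < r
    · obtain ⟨e, he1, he2⟩ := exists_between hlo
      exact ⟨e, he1, he2.trans hhi, he2.ne, ⟨fun _ => hjr, fun _ => he2⟩⟩
    · obtain ⟨e, he1, he2⟩ := exists_between hhi
      exact ⟨e, hlo.trans he1, he2, he1.ne', ⟨fun h => absurd h (not_lt.2 he1.le), fun h =>
        absurd h hjr⟩⟩
  have hval : (Rf S (fun p => (c p : V)) q (ev d ∘ t) (d j0 ∘ b) ↔ (if j < r then v else ¬ v)) := by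
    by_cases hjr : j < r
    · rw [if_pos hjr]
      exact h1 j0 hj01 (hv.2 hjr)
    · rw [if_neg hjr]
      exact h2 j0 (lt_of_le_of_ne (not_lt.1 fun h => hjr (hv.1 h)) hji.symm) hj02
  rw [← hval]
  have h3 := JF_ind hI c t b j0 q (Function.update (mv1 i r) j0 j) (by
    have hσi : Function.update (mv1 i r) j0 j i = r := by
      rw [Function.update_of_ne hji.symm, JF_mv1]
    have hσj : Function.update (mv1 i r) j0 j j0 = j := Function.update_self ..
    have hσe : ∀ e, e ≠ i → e ≠ j0 → Function.update (mv1 i r) j0 j e = e := by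
      intro e h4 h5
      rw [Function.update_of_ne h5, JF_mv1' h4]
    have hcase : ∀ e ∈ insert j0 (⋃ k, ix (t k)), e = j0 ∨ e = i ∨ (e ≠ j0 ∧ e ≠ i ∧
        (e ≤ lo ∨ hi ≤ e)) := by
      intro e he
      by_cases h4 : e = j0
      · exact Or.inl h4
      · by_cases h5 : e = i
        · exact Or.inr (Or.inl h5)
        · refine Or.inr (Or.inr ⟨h4, h5, ?_⟩)
          by_contra h6
          rw [not_or, not_le, not_le] at h6
          exact h5 (hI1 e (he.resolve_left h4) h6.1 h6.2)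
    have hjr' : j0 < i → j < r := fun h => hv.1 h
    have hjr'' : i < j0 → r < j := fun h => lt_of_le_of_ne (not_lt.1 fun h4 =>
      absurd (hv.2 h4) (not_lt.2 h.le)) hrj
    intro e he e' he' hee
    rcases hcase e he with rfl | rfl | ⟨h4, h5, h6⟩ <;>
      rcases hcase e' he' with rfl | rfl | ⟨h7, h8, h9⟩
    · exact absurd hee (lt_irrefl _)
    · rw [hσj, hσi]
      exact hjr' hee
    · rw [hσj, hσe _ h8 h7]
      rcases h9 with h9 | h9 <;> linarith
    · rw [hσj, hσi]
      exact hjr'' hee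
    · exact absurd hee (lt_irrefl _)
    · rw [hσi, hσe _ h8 h7]
      rcases h9 with h9 | h9 <;> linarith
    · rw [hσj, hσe _ h5 h4]
      rcases h6 with h6 | h6 <;> linarith
    · rw [hσi, hσe _ h5 h4]
      rcases h6 with h6 | h6 <;> linarith
    · rw [hσe _ h5 h4, hσe _ h8 h7]
      exact hee)
  rw [Function.update_self] at h3
  rw [h3]
  have h4 : mv (Function.update (mv1 i r) j0 j) ∘ t = mv (mv1 i r) ∘ t := by
    funext k
    have h5 : ∀ e ∈ ix (t k), e ≠ j0 := by
      intro e he h6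
      have h7 := hI1 e (mem_iUnion.2 ⟨k, he⟩) (h6 ▸ hj01) (h6 ▸ hj02)
      exact hji (h6.symm.trans h7)
    show mv (Function.update (mv1 i r) j0 j) (t k) = mv (mv1 i r) (t k)
    rcases hk : t k with x | x
    · rfl
    · have h6 := h5 x.1 (by rw [hk]; exact rfl)
      show Sum.inr (Function.update (mv1 i r) j0 j x.1, x.2) = Sum.inr (mv1 i r x.1, x.2)
      rw [Function.update_of_ne h6]
  rw [h4]

/-- If the value changes at the index `i` of `x`, then all coordinates of `x` have the index `i`. -/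
theorem JF_one (hI : Indc S M d) [Finite P] [Finite α] [Finite β] (c : P → M)
    (t : α → M ⊕ (ℚ × R)) (b : β → R) (q : Qf L (P ⊕ (α ⊕ β)))
    (hmin : Mnl S (Nat.card α + Nat.card β)) (v : Prop)
    {lo i hi : ℚ} (hlo : lo < i) (hhi : i < hi)
    (hI1 : ∀ e ∈ ⋃ k, ix (t k), lo < e → e < hi → e = i)
    (h1 : ∀ e, lo < e → e < i → (Rf S (fun p => (c p : V)) q (ev d ∘ t) (d e ∘ b) ↔ v))
    (h2 : ∀ e, i < e → e < hi → (Rf S (fun p => (c p : V)) q (ev d ∘ t) (d e ∘ b) ↔ ¬ v)) :
    ∃ f : α → R, t = fun k => Sum.inr (i, f k) := by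
  classical
  by_cases hall : ∀ k, ∃ r, t k = Sum.inr (i, r)
  · choose f hf using hall
    exact ⟨f, funext hf⟩
  exfalso
  let A : Type := {k : α // ∃ r, t k = Sum.inr (i, r)}
  let B : Type := {k : α // ¬ ∃ r, t k = Sum.inr (i, r)}
  let ρ : P ⊕ (α ⊕ β) → (P ⊕ B) ⊕ (A ⊕ β) := Sum.elim (fun p => Sum.inl (Sum.inl p))
    (Sum.elim (fun k => if h : ∃ r, t k = Sum.inr (i, r) then Sum.inr (Sum.inl ⟨k, h⟩)
      else Sum.inl (Sum.inr ⟨k, h⟩)) fun k => Sum.inr (Sum.inr k))
  let c' : P ⊕ B → V := Sum.elim (fun p => (c p : V)) fun k => ev d (t k.1)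
  have hcard : Nat.card A < Nat.card α := by
    obtain ⟨k, hk⟩ := not_forall.1 hall
    exact Finite.card_subtype_lt hk
  refine hmin (P ⊕ B) A β (q.map ρ) c' (by omega) ?_
  -- a monotone sequence
  obtain ⟨g, hg1, hg2⟩ : ∃ g : ℕ → ℚ, (∀ k, lo < g k ∧ g k < hi) ∧
      ∀ k l, k ≠ l → ((if g l < g k then v else ¬ v) ↔ k < l) := by
    by_cases hv : v
    · obtain ⟨g, h3, h4⟩ := JF_down lo hi (hlo.trans hhi)
      refine ⟨g, h3, fun k l hkl => ?_⟩
      have h5 : g l < g k ↔ k < l := ⟨fun h => by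
        by_contra h6
        exact absurd h (not_lt.2 (h4.antitone (not_lt.1 h6))), fun h => h4 h⟩
      by_cases h6 : g l < g k
      · rw [if_pos h6]
        exact ⟨fun _ => h5.1 h6, fun _ => hv⟩
      · rw [if_neg h6]
        exact ⟨fun h => absurd hv h, fun h => absurd (h5.2 h) h6⟩
    · obtain ⟨g, h3, h4⟩ := JF_up lo hi (hlo.trans hhi)
      refine ⟨g, h3, fun k l hkl => ?_⟩
      by_cases h6 : g l < g k
      · rw [if_pos h6]
        refine ⟨fun h => absurd h hv, fun h => ?_⟩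
        exact absurd (h4 h) (not_lt.2 h6.le)
      · rw [if_neg h6]
        refine ⟨fun _ => ?_, fun _ => hv⟩
        rcases lt_or_gt_of_ne hkl with h | h
        · exact h
        · exact absurd (h4 h) h6
  have hginj : ∀ k l, k ≠ l → g k ≠ g l := by
    intro k l hkl h
    have h3 := hg2 k l hkl
    have h4 := hg2 l k hkl.symm
    rw [h, if_neg (lt_irrefl _)] at h3
    rw [h, if_neg (lt_irrefl _)] at h4
    rcases lt_or_gt_of_ne hkl with h5 | h5
    · exact absurd (h4.1 (h3.2 h5)) (not_lt.2 h5.le)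
    · exact absurd (h3.1 (h4.2 h5)) (not_lt.2 h5.le)
  intro N
  refine ⟨fun k => fun x : A => (ev d ∘ mv (mv1 i (g k)) ∘ t) x.1, fun l => d (g l) ∘ b,
    fun k l _ _ hkl => ?_⟩
  have h3 := JF_move hI c t b q v hlo hhi hI1 h1 h2 (hg1 k).1 (hg1 k).2 (hg1 l).1 (hg1 l).2
    (hginj k l hkl)
  rw [← hg2 k l hkl, ← h3]
  show (q.map ρ).Tr S _ ↔ q.Tr S _
  rw [qfc_tr_map]
  have h4 : Sum.elim c' (Sum.elim (fun x : A => (ev d ∘ mv (mv1 i (g k)) ∘ t) x.1) (d (g l) ∘ b)) ∘ ρ
      = Sum.elim (fun p => (c p : V)) (Sum.elim (ev d ∘ mv (mv1 i (g k)) ∘ t) (d (g l) ∘ b)) := by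
    funext k'
    rcases k' with k' | k' | k'
    · rfl
    · by_cases h : ∃ r, t k' = Sum.inr (i, r)
      · have h5 : ρ (Sum.inr (Sum.inl k')) = Sum.inr (Sum.inl ⟨k', h⟩) := dif_pos h
        show Sum.elim c' _ (ρ (Sum.inr (Sum.inl k'))) = _
        rw [h5]
        rfl
      · have h5 : ρ (Sum.inr (Sum.inl k')) = Sum.inl (Sum.inr ⟨k', h⟩) := dif_neg h
        show Sum.elim c' _ (ρ (Sum.inr (Sum.inl k'))) = _
        rw [h5]
        show ev d (t k') = ev d (mv (mv1 i (g k)) (t k'))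
        rcases hk : t k' with x | x
        · rfl
        · show d x.1 x.2 = d (mv1 i (g k) x.1) x.2
          rw [JF_mv1']
          rintro rfl
          exact h ⟨x.2, hk⟩
    · rfl
  rw [h4]

/-- **Junk free.** If the values at `s l` and at `u l` are different for more indices `l` than `x`
has coordinates, then `x` is a tuple at one index `i`, and the value changes at `i`. -/
theorem jf (hI : Indc S M d) [Finite P] [Finite α] [Finite β] (c : P → M)
    (t : α → M ⊕ (ℚ × R)) (b : β → R) (q : Qf L (P ⊕ (α ⊕ β)))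
    (hmin : Mnl S (Nat.card α + Nat.card β)) (v : Prop) {κ : Type} [Finite κ]
    (hκ : Nat.card α < Nat.card κ) (s u : κ → ℚ)
    (hs : Function.Injective s) (hu : Function.Injective u) (hsu : ∀ l l', s l < u l')
    (h1 : ∀ l, (Rf S (fun p => (c p : V)) q (ev d ∘ t) (d (s l) ∘ b) ↔ v))
    (h2 : ∀ l, (Rf S (fun p => (c p : V)) q (ev d ∘ t) (d (u l) ∘ b) ↔ ¬ v)) :
    ∃ (i : ℚ) (f : α → R), (t = fun k => Sum.inr (i, f k)) ∧ (∀ l, s l ≤ i) ∧ (∀ l, i ≤ u l) ∧
      (∀ j < i, (Rf S (fun p => (c p : V)) q (ev d ∘ t) (d j ∘ b) ↔ v)) ∧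
      ∀ j, i < j → (Rf S (fun p => (c p : V)) q (ev d ∘ t) (d j ∘ b) ↔ ¬ v) := by
  classical
  have hfree : ∀ s : κ → ℚ, Function.Injective s → ∃ l, s l ∉ ⋃ k, ix (t k) := by
    intro s hs
    by_contra hcon
    push Not at hcon
    have h3 : ∀ l, ∃ k, s l ∈ ix (t k) := fun l => mem_iUnion.1 (hcon l)
    choose k hk using h3
    have h4 : Function.Injective k := by
      intro l l' hll
      apply hs
      have h5 := hk l
      have h6 := hk l'
      rw [← hll] at h6
      rcases hx : t (k l) with x | x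
      · rw [hx] at h5
        exact absurd h5 (notMem_empty _)
      · rw [hx] at h5 h6
        exact (mem_singleton_iff.1 h5).trans (mem_singleton_iff.1 h6).symm
    exact absurd (Nat.card_le_card_of_injective k h4) (not_le.2 hκ)
  have hw : ∀ j j', j < j' → (∀ i ∈ ⋃ k, ix (t k), ¬ (j ≤ i ∧ i ≤ j')) →
      (Rf S (fun p => (c p : V)) q (ev d ∘ t) (d j ∘ b) ↔
        Rf S (fun p => (c p : V)) q (ev d ∘ t) (d j' ∘ b)) := by
    intro j j' hjj hno
    have h3 := JF_ind hI c t b j q (Function.update id j j') (by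
      have hj : Function.update (id : ℚ → ℚ) j j' j = j' := Function.update_self ..
      have he : ∀ e, e ≠ j → Function.update (id : ℚ → ℚ) j j' e = e := fun e h =>
        Function.update_of_ne h ..
      intro e he1 e' he2 hee
      by_cases h4 : e = j
      · have h5 : e' ≠ j := by
          rintro rfl
          exact absurd hee (by rw [h4]; exact lt_irrefl _)
        rw [h4, hj, he e' h5]
        have h6 := hno e' (he2.resolve_left h5)
        by_contra h7
        exact h6 ⟨(h4 ▸ hee).le, not_lt.1 h7⟩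
      · by_cases h5 : e' = j
        · rw [h5, hj, he e h4]
          exact (h5 ▸ hee).trans hjj
        · rw [he e h4, he e' h5]
          exact hee)
    rw [Function.update_self] at h3
    rw [h3]
    have h4 : mv (Function.update (id : ℚ → ℚ) j j') ∘ t = t := by
      funext k
      show mv (Function.update (id : ℚ → ℚ) j j') (t k) = t k
      rcases hk : t k with x | x
      · rfl
      · show Sum.inr (Function.update (id : ℚ → ℚ) j j' x.1, x.2) = Sum.inr x
        rw [Function.update_of_ne]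
        · rfl
        · intro h5
          exact hno x.1 (mem_iUnion.2 ⟨k, by rw [hk]; exact rfl⟩)
            ⟨h5.ge, h5.le.trans hjj.le⟩
    rw [h4]
  obtain ⟨l, hl⟩ := hfree s hs
  obtain ⟨l', hl'⟩ := hfree u hu
  obtain ⟨i, hi, lo, hi1, h3, h4, h5, h6, h7, h8, h9⟩ := JF_change _ (JF_fin t)
    (fun j => Rf S (fun p => (c p : V)) q (ev d ∘ t) (d j ∘ b)) v hw (s l) (u l') (hsu l l') hl hl'
    (h1 l) (h2 l')
  obtain ⟨f, hf⟩ := JF_one hI c t b q hmin v h4 h5 h7 h8 h9
  -- there is only the index `i`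
  have hix : ∀ e ∈ ⋃ k, ix (t k), e = i := by
    intro e he
    obtain ⟨k, hk⟩ := mem_iUnion.1 he
    rw [hf] at hk
    exact mem_singleton_iff.1 hk
  have hlow : ∀ j < i, (Rf S (fun p => (c p : V)) q (ev d ∘ t) (d j ∘ b) ↔ v) := by
    intro j hj
    have h10 : s l < i := h3.trans_lt h4
    rcases lt_trichotomy j (s l) with h | h | h
    · rw [hw j (s l) h fun e he h' => by
        rw [hix e he] at h'
        exact absurd h'.2 (not_le.2 h10)]
      exact h1 l
    · rw [h]
      exact h1 l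
    · rw [← hw (s l) j h fun e he h' => by
        rw [hix e he] at h'
        exact absurd h'.2 (not_le.2 hj)]
      exact h1 l
  have hup : ∀ j, i < j → (Rf S (fun p => (c p : V)) q (ev d ∘ t) (d j ∘ b) ↔ ¬ v) := by
    intro j hj
    have h10 : i < u l' := h5.trans_le h6
    rcases lt_trichotomy j (u l') with h | h | h
    · rw [hw j (u l') h fun e he h' => by
        rw [hix e he] at h'
        exact absurd h'.1 (not_le.2 hj)]
      exact h2 l'
    · rw [h]
      exact h2 l'
    · rw [← hw (u l') j h fun e he h' => by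
        rw [hix e he] at h'
        exact absurd h'.1 (not_le.2 h10)]
      exact h2 l'
  refine ⟨i, f, hf, fun k => ?_, fun k => ?_, hlow, hup⟩
  · by_contra h
    have h10 := hup (s k) (not_le.1 h)
    have h11 := h1 k
    by_cases hv : v
    · exact (h10.1 (h11.2 hv)) hv
    · exact hv (h11.1 (h10.2 hv))
  · by_contra h
    have h10 := hlow (u k) (not_le.1 h)
    have h11 := h2 k
    by_cases hv : v
    · exact (h11.1 (h10.2 hv)) hv
    · exact hv (h10.1 (h11.2 hv))

end

end EAP
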