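import Pool.Agent.EAP.IDX
import Pool.Agent.ORD.DCN

/-!
# EAP [PA]: a minimal ladder in an indiscernible sequence gives perfectly many models
-/

set_option autoImplicit false
set_option linter.unusedVariables false
set_option linter.unusedSectionVars false

namespace EAP

open Set ORD Pool.Agent.Helper5.DU Pool.Agent.Helper6.Str Pool.Agent.Helper79.VC

variable {L : FirstOrder.Language.{0, 0}} {V P R α β κ ι : Type}

theorem tr_iso (S : L.Structure V) {A : Set V} {h : V → V} (hinj : InjOn h A)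
    (hrel : ∀ (n : ℕ) (R : L.Relations n) (t : Fin n → V), (∀ i, t i ∈ A) →
      (S.RelMap R t ↔ S.RelMap R (h ∘ t))) (q : Qf L ι) (v : ι → V) (hv : ∀ i, v i ∈ A) :
    q.Tr S v ↔ q.Tr S (h ∘ v) := by
  induction q with
  | eq i j => exact ⟨fun e => congrArg h e, fun e => hinj (hv i) (hv j) e⟩
  | rel n R t => exact hrel n R (fun k => v (t k)) fun k => hv (t k)
  | bot => exact Iff.rfl
  | imp φ ψ h1 h2 => exact imp_congr h1 h2

namespace Dat

variable {D : Dat L V P R α β κ}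

/-- isomorphisms between subsets which fix the parameters -/
structure Iso (D : Dat L V P R α β κ) (A A' : Set V) (h : V → V) : Prop where
  bij : BijOn h A A'
  rel : ∀ (n : ℕ) (R : L.Relations n) (t : Fin n → V), (∀ i, t i ∈ A) →
      (D.S.RelMap R t ↔ D.S.RelMap R (h ∘ t))
  cA : ∀ p, (D.c p : V) ∈ A
  cst : ∀ p, h (D.c p) = D.c p
  sA : ∀ l r, D.d (D.s l) r ∈ A
  sf : ∀ l r, h (D.d (D.s l) r) = D.d (D.s l) r
  uA : ∀ l r, D.d (D.u l) r ∈ A
  uf : ∀ l r, h (D.d (D.u l) r) = D.d (D.u l) r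

theorem Iso.phi {A A' : Set V} {h : V → V} (hh : D.Iso A A' h) {x : α → V} (hx : ∀ k, x k ∈ A)
    {y : β → V} (hy : ∀ k, y k ∈ A) : D.Φ x y ↔ D.Φ (h ∘ x) (h ∘ y) := by
  have h1 := tr_iso D.S hh.bij.injOn hh.rel D.q (Sum.elim (fun p => (D.c p : V)) (Sum.elim x y))
    (by
      intro i
      rcases i with i | i | i
      · exact hh.cA i
      · exact hx i
      · exact hy i)
  have h2 : h ∘ Sum.elim (fun p => (D.c p : V)) (Sum.elim x y) =
      Sum.elim (fun p => (D.c p : V)) (Sum.elim (h ∘ x) (h ∘ y)) := by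
    funext i
    rcases i with i | i | i
    · exact hh.cst i
    · rfl
    · rfl
  rw [h2] at h1
  exact h1

theorem Iso.fs {A A' : Set V} {h : V → V} (hh : D.Iso A A' h) {ι : Type} (l : κ) (f : ι → R) :
    h ∘ (D.d (D.s l) ∘ f) = D.d (D.s l) ∘ f := funext fun k => hh.sf l (f k)

theorem Iso.fu {A A' : Set V} {h : V → V} (hh : D.Iso A A' h) {ι : Type} (l : κ) (f : ι → R) :
    h ∘ (D.d (D.u l) ∘ f) = D.d (D.u l) ∘ f := funext fun k => hh.uf l (f k)

theorem Iso.phs {A A' : Set V} {h : V → V} (hh : D.Iso A A' h) {x : α → V} (hx : ∀ k, x k ∈ A)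
    (l : κ) : (D.Φ x (D.d (D.s l) ∘ D.fb) ↔ D.Φ (h ∘ x) (D.d (D.s l) ∘ D.fb)) ∧
      (D.Φ x (D.d (D.u l) ∘ D.fb) ↔ D.Φ (h ∘ x) (D.d (D.u l) ∘ D.fb)) := by
  have h1 := hh.phi hx (y := D.d (D.s l) ∘ D.fb) fun k => hh.sA l _
  have h2 := hh.phi hx (y := D.d (D.u l) ∘ D.fb) fun k => hh.uA l _
  rw [hh.fs] at h1
  rw [hh.fu] at h2
  exact ⟨h1, h2⟩

theorem Iso.pht {A A' : Set V} {h : V → V} (hh : D.Iso A A' h) {y : β → V} (hy : ∀ k, y k ∈ A)
    (l : κ) : (D.Φ (D.d (D.s l) ∘ D.fa) y ↔ D.Φ (D.d (D.s l) ∘ D.fa) (h ∘ y)) ∧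
      (D.Φ (D.d (D.u l) ∘ D.fa) y ↔ D.Φ (D.d (D.u l) ∘ D.fa) (h ∘ y)) := by
  have h1 := hh.phi (x := D.d (D.s l) ∘ D.fa) (fun k => hh.sA l _) hy
  have h2 := hh.phi (x := D.d (D.u l) ∘ D.fa) (fun k => hh.uA l _) hy
  rw [hh.fs] at h1
  rw [hh.fu] at h2
  exact ⟨h1, h2⟩

theorem Iso.memX {A A' : Set V} {h : V → V} (hh : D.Iso A A' h) {x : α → V}
    (hx : ∀ k, x k ∈ A) : x ∈ D.X A ↔ h ∘ x ∈ D.X A' := by
  constructor
  · intro h1
    refine ⟨fun k => hh.bij.mapsTo (hx k), fun l => ?_⟩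
    rw [← (hh.phs hx l).1, ← (hh.phs hx l).2]
    exact h1.2 l
  · intro h1
    refine ⟨hx, fun l => ?_⟩
    have h2 := h1.2 l
    rw [← (hh.phs hx l).1, ← (hh.phs hx l).2] at h2
    exact h2

theorem Iso.memY {A A' : Set V} {h : V → V} (hh : D.Iso A A' h) {y : β → V}
    (hy : ∀ k, y k ∈ A) : y ∈ D.Y A ↔ h ∘ y ∈ D.Y A' := by
  constructor
  · intro h1
    refine ⟨fun k => hh.bij.mapsTo (hy k), fun l => ?_⟩
    rw [← (hh.pht hy l).1, ← (hh.pht hy l).2]
    exact h1.2 l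
  · intro h1
    refine ⟨hy, fun l => ?_⟩
    have h2 := h1.2 l
    rw [← (hh.pht hy l).1, ← (hh.pht hy l).2] at h2
    exact h2

theorem Iso.lift {A A' : Set V} {h : V → V} (hh : D.Iso A A' h) {ι : Type} {x' : ι → V}
    (hx' : ∀ k, x' k ∈ A') : ∃ x : ι → V, (∀ k, x k ∈ A) ∧ h ∘ x = x' := by
  have h1 : ∀ k, ∃ v ∈ A, h v = x' k := fun k => hh.bij.surjOn (hx' k)
  choose x hx1 hx2 using h1
  exact ⟨x, hx1, funext hx2⟩

theorem Iso.inj {A A' : Set V} {h : V → V} (hh : D.Iso A A' h) {ι : Type} {x x' : ι → V}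
    (hx : ∀ k, x k ∈ A) (hx' : ∀ k, x' k ∈ A) (he : h ∘ x = h ∘ x') : x = x' :=
  funext fun k => hh.bij.injOn (hx k) (hx' k) (congrFun he k)

theorem Iso.eqv {A A' : Set V} {h : V → V} (hh : D.Iso A A' h) {x x' : α → V}
    (hx : ∀ k, x k ∈ A) (hx' : ∀ k, x' k ∈ A) :
    D.Eqv A x x' ↔ D.Eqv A' (h ∘ x) (h ∘ x') := by
  have h1 : {y ∈ D.Y A' | ¬ (D.Φ (h ∘ x) y ↔ D.Φ (h ∘ x') y)} =
      (fun y => h ∘ y) '' {y ∈ D.Y A | ¬ (D.Φ x y ↔ D.Φ x' y)} := by
    ext y'
    constructor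
    · rintro ⟨hy', hne⟩
      obtain ⟨y, hy, rfl⟩ := hh.lift hy'.1
      refine ⟨y, ⟨(hh.memY hy).2 hy', ?_⟩, rfl⟩
      rw [← hh.phi hx hy, ← hh.phi hx' hy] at hne
      exact hne
    · rintro ⟨y, ⟨hy, hne⟩, rfl⟩
      refine ⟨(hh.memY hy.1).1 hy, ?_⟩
      show ¬ (D.Φ (h ∘ x) (h ∘ y) ↔ D.Φ (h ∘ x') (h ∘ y))
      rw [← hh.phi hx hy.1, ← hh.phi hx' hy.1]
      exact hne
  unfold Eqv
  rw [h1]
  refine ⟨fun h2 => h2.image _, fun h2 => h2.of_finite_image ?_⟩
  intro y hy y' hy' he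
  exact hh.inj hy.1.1 hy'.1.1 he

theorem Iso.dec {A A' : Set V} {h : V → V} (hh : D.Iso A A' h) {q : ℕ} (hq : D.Dec A q) :
    D.Dec A' q := by
  obtain ⟨x, hx, hfin, hdv⟩ := hq
  have h1 : D.cls A' (h ∘ x) = (fun y => h ∘ y) '' D.cls A x := by
    ext x'
    constructor
    · rintro ⟨hx', he⟩
      obtain ⟨x1, hx1, rfl⟩ := hh.lift hx'.1
      exact ⟨x1, ⟨(hh.memX hx1).2 hx', (hh.eqv hx.1 hx1).2 he⟩, rfl⟩
    · rintro ⟨x1, ⟨hx1, he⟩, rfl⟩
      exact ⟨(hh.memX hx1.1).1 hx1, (hh.eqv hx.1 hx1.1).1 he⟩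
  refine ⟨h ∘ x, (hh.memX hx.1).1 hx, ?_, ?_⟩
  · rw [h1]
    exact hfin.image _
  · rw [h1, Set.InjOn.ncard_image]
    · exact hdv
    · intro y hy y' hy' he
      exact hh.inj hy.1.1 hy'.1.1 he

end Dat

theorem bk_disj {k k' p p' : ℕ} {i : ℚ} (h : i ∈ bk k p) (h' : i ∈ bk k' p') : k = k' := by
  have h1 := bk_mem h
  have h2 := bk_mem h'
  have h3 := xk_lt_mk k
  have h4 := xk_lt_mk k'
  rcases lt_trichotomy k k' with h5 | h5 | h5
  · have h6 : xk (k + 1) ≤ xk k' := xk_mono.monotone (Nat.succ_le_of_lt h5)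
    linarith [h1.2, h2.1]
  · exact h5
  · have h6 : xk (k' + 1) ≤ xk k := xk_mono.monotone (Nat.succ_le_of_lt h5)
    linarith [h1.1, h2.2]

theorem Jz_clopen (N : ℕ) (p : ℕ → ℕ) (i : ℚ) :
    IsClopen {f : ℕ → Bool | i ∈ Jz N p {k | f k = true}} := by
  by_cases h1 : i ∈ (range fun l : Fin N => ((l : ℕ) : ℚ) - N) ∪
      (range fun l : Fin N => ((l : ℕ) : ℚ) + 1) ∪ {i | ∃ k, xk k < i ∧ i < mk k}
  · have h2 : {f : ℕ → Bool | i ∈ Jz N p {k | f k = true}} = univ :=
      eq_univ_of_forall fun f => Or.inl h1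
    rw [h2]
    exact isClopen_univ
  · by_cases h2 : ∃ k, i ∈ bk k (p k)
    · obtain ⟨k, hk⟩ := h2
      have h3 : {f : ℕ → Bool | i ∈ Jz N p {k | f k = true}} = (fun f => f k) ⁻¹' {true} := by
        ext f
        constructor
        · rintro (h | ⟨k', h3, h4⟩)
          · exact absurd h h1
          · have h5 : k' = k := bk_disj h4 hk
            rw [← h5]
            exact h3
        · intro h
          exact Or.inr ⟨k, h, hk⟩
      rw [h3]
      exact (isClopen_discrete {true}).preimage (continuous_apply k)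
    · have h3 : {f : ℕ → Bool | i ∈ Jz N p {k | f k = true}} = ∅ := by
        refine eq_empty_of_forall_notMem fun f => ?_
        rintro (h | ⟨k', h3, h4⟩)
        · exact h1 h
        · exact h2 ⟨k', h4⟩
      rw [h3]
      exact isClopen_empty

/-- **Part A.** In a scattered class there is no minimal ladder in an indiscernible sequence over a
countable set `M`, if all countable infinite sets which contain `M` are members. -/
theorem pa [∀ n, IsEmpty (L.Functions n)] {K : Set (L.Structure ℕ)} (hK : Scat K) (N : ℕ)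
    (D : Dat L V P R α β (Fin N)) [Finite P] [Finite R] [Finite α]
    [Finite β] [Nonempty α] [Nonempty β] (hs : D.s = fun l : Fin N => ((l : ℕ) : ℚ) - N)
    (hu : D.u = fun l : Fin N => ((l : ℕ) : ℚ) + 1) (hM : D.M.Countable)
    (hmem : ∀ A : Set V, D.M ⊆ A → ∀ e : ℕ → V, Function.Injective e → range e = A →
      pl D.S e ∈ K) : False := by
  classical
  have hN : 0 < N := by
    have := D.ka
    rw [Nat.card_eq_fintype_card (α := Fin N), Fintype.card_fin] at this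
    omega
  let p : ℕ → ℕ := fun k => Nat.nth Nat.Prime (Nat.card (α → R) + k + 1)
  have hp : ∀ k, (p k).Prime := fun k => Nat.prime_nth_prime _
  have hpm : StrictMono p := fun k l hkl =>
    Nat.nth_strictMono Nat.infinite_setOfPred_prime (by omega)
  have hpl : ∀ k, Nat.card (α → R) < p k := fun k =>
    lt_of_lt_of_le (by omega) (Nat.nth_strictMono Nat.infinite_setOfPred_prime).le_apply
  let X : (ℕ → Bool) → Set V := fun f => D.A (Jz N p {k | f k = true})
  let G : Set V := range (fun p => (D.c p : V)) ∪ (⋃ l, range (D.d (D.s l))) ∪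
    ⋃ l, range (D.d (D.u l))
  have hsJ : ∀ Z l, D.s l ∈ Jz N p Z := fun Z l => by
    rw [hs]
    exact Or.inl (Or.inl (Or.inl ⟨l, rfl⟩))
  have huJ : ∀ Z l, D.u l ∈ Jz N p Z := fun Z l => by
    rw [hu]
    exact Or.inl (Or.inl (Or.inr ⟨l, rfl⟩))
  have hGX : ∀ f, G ⊆ X f := by
    intro f v hv
    rcases hv with (⟨p, rfl⟩ | h) | h
    · exact Or.inl (D.c p).2
    · obtain ⟨l, r, rfl⟩ := mem_iUnion.1 h
      exact Or.inr ⟨_, hsJ _ l, r, rfl⟩
    · obtain ⟨l, r, rfl⟩ := mem_iUnion.1 h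
      exact Or.inr ⟨_, huJ _ l, r, rfl⟩
  have hGf : G.Finite := ((finite_range _).union (finite_iUnion fun l => finite_range _)).union
    (finite_iUnion fun l => finite_range _)
  obtain ⟨r0⟩ : Nonempty R := ⟨D.fa (Classical.arbitrary α)⟩
  obtain ⟨f, f', hne, g, hg1, hg2⟩ := dcn hK D.S X (by
      refine (hM.union (countable_range fun x : ℚ × R => D.d x.1 x.2)).mono ?_
      refine iUnion_subset fun f => ?_
      rintro v (h | ⟨i, _, r, rfl⟩)
      · exact Or.inl h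
      · exact Or.inr ⟨(i, r), rfl⟩)
    (by
      intro x
      by_cases hx : x ∈ D.M
      · have h2 : {f | x ∈ X f} = univ := eq_univ_of_forall fun f => Or.inl hx
        rw [h2]
        exact isClopen_univ
      · by_cases hi : ∃ i r, D.d i r = x
        · obtain ⟨i, r, rfl⟩ := hi
          have h2 : {f | D.d i r ∈ X f} = {f : ℕ → Bool | i ∈ Jz N p {k | f k = true}} := by
            ext f
            constructor
            · rintro (h | ⟨i', hi', r', h⟩)
              · exact absurd h hx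
              · have : i' = i := by
                  by_contra h3
                  exact D.dif i' i r' r h3 h
                exact this ▸ hi'
            · intro h
              exact Or.inr ⟨i, h, r, rfl⟩
          rw [h2]
          exact Jz_clopen N p i
        · have h2 : {f | x ∈ X f} = ∅ := by
            refine eq_empty_of_forall_notMem fun f => ?_
            rintro (h | ⟨i', hi', r', h⟩)
            · exact hx h
            · exact hi ⟨i', r', h⟩
          rw [h2]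
          exact isClopen_empty)
    (by
      intro f hfin
      refine Ioo_infinite (xk_lt_mk 0) ?_
      have h3 : (fun i => D.d i r0) '' Ioo (xk 0) (mk 0) ⊆ X f := by
        rintro _ ⟨i, hi, rfl⟩
        exact Or.inr ⟨i, Jz_dense 0 hi, r0, rfl⟩
      refine (hfin.subset h3).of_finite_image ?_
      intro i _ i' _ h
      by_contra h4
      exact D.dif i i' r0 r0 h4 h)
    G hGf hGX (fun f e he1 he2 => hmem (X f) (fun v hv => Or.inl hv) e he1 he2)
  -- the decoding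
  have hdir : ∀ (f f' : ℕ → Bool) (g : X f ≃ X f'), (∀ x : X f, (x : V) ∈ G → (g x : V) = x) →
      (∀ (n : ℕ) (R : L.Relations n) (v : Fin n → X f),
        D.S.RelMap R (fun i => (v i : V)) ↔ D.S.RelMap R (fun i => (g (v i) : V))) →
      ∀ q, D.Dec (X f) q → D.Dec (X f') q := by
    intro f f' g hg1 hg2 q hq
    let h : V → V := fun v => if hv : v ∈ X f then (g ⟨v, hv⟩ : V) else v
    have hh : ∀ v (hv : v ∈ X f), h v = (g ⟨v, hv⟩ : V) := fun v hv => dif_pos hv
    have hfix : ∀ v ∈ G, h v = v := fun v hv => by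
      rw [hh v (hGX f hv)]
      exact hg1 ⟨v, hGX f hv⟩ hv
    refine Dat.Iso.dec (A := X f) (A' := X f') (h := h) ⟨⟨?_, ?_, ?_⟩, ?_, ?_, ?_, ?_, ?_, ?_, ?_⟩ hq
    · intro v hv
      rw [hh v hv]
      exact (g ⟨v, hv⟩).2
    · intro v hv v' hv' he
      rw [hh v hv, hh v' hv'] at he
      exact congrArg Subtype.val (g.injective (Subtype.ext he))
    · intro v hv
      refine ⟨g.symm ⟨v, hv⟩, (g.symm ⟨v, hv⟩).2, ?_⟩
      rw [hh _ (g.symm ⟨v, hv⟩).2]
      show ((g (g.symm ⟨v, hv⟩) : X f') : V) = v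
      rw [g.apply_symm_apply]
    · intro n R t ht
      have h1 := hg2 n R fun i => ⟨t i, ht i⟩
      have h2 : (h ∘ t) = fun i => ((g ⟨t i, ht i⟩ : X f') : V) := funext fun i => hh _ (ht i)
      rw [h2]
      exact h1
    · exact fun p => Or.inl (D.c p).2
    · exact fun p => hfix _ (Or.inl (Or.inl ⟨p, rfl⟩))
    · exact fun l r => Or.inr ⟨_, hsJ _ l, r, rfl⟩
    · exact fun l r => hfix _ (Or.inl (Or.inr (mem_iUnion.2 ⟨l, r, rfl⟩)))
    · exact fun l r => Or.inr ⟨_, huJ _ l, r, rfl⟩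
    · exact fun l r => hfix _ (Or.inr (mem_iUnion.2 ⟨l, r, rfl⟩))
  refine hne (funext fun k => ?_)
  have hd1 := hdir f f' g hg1 hg2 (p k)
  have hd2 := hdir f' f g.symm (by
      intro x hx
      have h1 := hg1 ⟨x, hGX f hx⟩ hx
      have h2 : g ⟨x, hGX f hx⟩ = x := Subtype.ext h1
      have h3 : g.symm x = ⟨x, hGX f hx⟩ := (Equiv.symm_apply_eq g).2 h2.symm
      exact congrArg Subtype.val h3) (by
      intro n R v
      have h1 := hg2 n R fun i => g.symm (v i)
      simp only [Equiv.apply_symm_apply] at h1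
      exact h1.symm) (p k)
  have h3 : ∀ f : ℕ → Bool, D.Dec (X f) (p k) ↔ f k = true := by
    intro f
    rw [idx N hN D hs hu p hp _ (p k) (hp k) (hpl k)]
    constructor
    · rintro ⟨k', h4, h5⟩
      rw [← hpm.injective h5]
      exact h4
    · intro h4
      exact ⟨k, h4, rfl⟩
  rw [h3, h3] at hd1 hd2
  cases h4 : f k with
  | true => exact (hd1 h4).symm
  | false =>
    cases h5 : f' k with
    | true => rw [hd2 h5] at h4; exact h4.symm
    | false => rfl

end EAP
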