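import Pool.Agent.EAP.PA
import Pool.Agent.ORD.CPT
import Pool.Agent.ORD.BAS
import Pool.Agent.Helper18.EH.Ramsey

/-!
# EAP [PB]: a minimal ladder in an indiscernible sequence exists
-/

set_option autoImplicit false
set_option linter.unusedVariables false
set_option linter.unusedSectionVars false

namespace EAP

open Set ORD

variable {L : FirstOrder.Language.{0, 0}} {ι M W P R : Type}

/-! ## Variables of formulas -/

/-- the variables of a formula -/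
def vs : Qf L ι → Set ι
  | .eq i j => {i, j}
  | .rel n R t => range t
  | .bot => ∅
  | .imp φ ψ => vs φ ∪ vs ψ

theorem vs_fin (φ : Qf L ι) : (vs φ).Finite := by
  induction φ with
  | eq i j => exact (finite_singleton j).insert i
  | rel n R t => exact finite_range t
  | bot => exact finite_empty
  | imp φ ψ h1 h2 => exact h1.union h2

theorem vs_tr (S : L.Structure M) {f g : ι → M} (φ : Qf L ι) (h : ∀ v ∈ vs φ, f v = g v) :
    φ.Tr S f ↔ φ.Tr S g := by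
  induction φ with
  | eq i j =>
    show f i = f j ↔ g i = g j
    rw [h i (Or.inl rfl), h j (Or.inr rfl)]
  | rel n R t =>
    show S.RelMap R _ ↔ S.RelMap R _
    rw [show (fun k => f (t k)) = fun k => g (t k) from funext fun k => h _ ⟨k, rfl⟩]
  | bot => exact Iff.rfl
  | imp φ ψ h1 h2 =>
    exact imp_congr (h1 fun v hv => h v (Or.inl hv)) (h2 fun v hv => h v (Or.inr hv))

theorem vs_map {κ : Type} (h : ι → κ) (φ : Qf L ι) : vs (φ.map h) = h '' vs φ := by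
  induction φ with
  | eq i j =>
    show ({h i, h j} : Set κ) = h '' {i, j}
    rw [image_pair]
  | rel n R t =>
    show range (fun k => h (t k)) = h '' range t
    rw [← range_comp]
    rfl
  | bot => exact (image_empty h).symm
  | imp φ ψ h1 h2 =>
    show vs (φ.map h) ∪ vs (ψ.map h) = h '' (vs φ ∪ vs ψ)
    rw [h1, h2, image_union]

/-! ## Names -/

/-- names: `W ⊕ P` are constants, `ℚ × R` the sequence -/
abbrev Nm (W P R : Type) : Type := (W ⊕ P) ⊕ (ℚ × R)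

/-- other indices -/
def mvn (σ : ℚ → ℚ) : Nm W P R → Nm W P R := Sum.map id fun p => (σ p.1, p.2)

/-- the index of a name -/
def ixn : Nm W P R → Set ℚ := Sum.elim (fun _ => ∅) fun p => {p.1}

/-- the indices of a formula -/
def ixf (θ : Qf L (Nm W P R)) : Set ℚ := ⋃ v ∈ vs θ, ixn v

theorem ixf_fin (θ : Qf L (Nm W P R)) : (ixf θ).Finite := by
  refine (vs_fin θ).biUnion fun v _ => ?_
  rcases v with v | v
  · exact finite_empty
  · exact finite_singleton _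

/-- the values of the names -/
def vl (w : W → M) (c : P → M) (a : ℕ → R → M) (e : ℚ → ℕ) : Nm W P R → M :=
  Sum.elim (Sum.elim w c) fun p => a (e p.1) p.2

theorem vl_mvn (w : W → M) (c : P → M) (a : ℕ → R → M) (e : ℚ → ℕ) (σ : ℚ → ℚ) :
    vl w c a e ∘ mvn σ = vl w c a (e ∘ σ) := by
  funext v
  rcases v with v | v <;> rfl

theorem vl_tr (S : L.Structure M) (w : W → M) (c : P → M) (a : ℕ → R → M) (e e' : ℚ → ℕ)
    (θ : Qf L (Nm W P R)) (h : EqOn e e' (ixf θ)) :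
    θ.Tr S (vl w c a e) ↔ θ.Tr S (vl w c a e') := by
  refine vs_tr S θ fun v hv => ?_
  rcases hv' : v with v' | v'
  · rfl
  · show a (e v'.1) v'.2 = a (e' v'.1) v'.2
    rw [h (mem_iUnion₂.2 ⟨v, hv, by rw [hv']; exact rfl⟩)]

/-! ## Ramsey's theorem -/

theorem mono_unique {I : Set ℚ} (hI : I.Finite) {e e' : ℚ → ℕ} (h : StrictMonoOn e I)
    (h' : StrictMonoOn e' I) (him : e '' I = e' '' I) : EqOn e e' I := by
  have hf : Finite I := hI
  have h1 : StrictMono fun x : I => e x := fun x y hxy => h x.2 y.2 hxy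
  have h2 : StrictMono fun x : I => e' x := fun x y hxy => h' x.2 y.2 hxy
  have h3 : (range fun x : I => e x) = range fun x : I => e' x := by
    rw [← image_eq_range, ← image_eq_range]
    exact him
  have h4 := (StrictMono.range_inj h1 h2).1 h3
  intro x hx
  exact congrFun h4 ⟨x, hx⟩

/-- homogeneous sets for finitely many formulas -/
theorem hom {X : Type} [Finite X] (S : L.Structure M) (w : W → M) (c : P → M) (a : ℕ → R → M)
    (θ : X → Qf L (Nm W P R)) : ∃ B : Set ℕ, B.Infinite ∧ ∀ x, ∀ e e' : ℚ → ℕ,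
      StrictMonoOn e (ixf (θ x)) → StrictMonoOn e' (ixf (θ x)) → e '' (ixf (θ x)) ⊆ B →
      e' '' (ixf (θ x)) ⊆ B → ((θ x).Tr S (vl w c a e) ↔ (θ x).Tr S (vl w c a e')) := by
  classical
  obtain ⟨N, hN⟩ : ∃ N, ∀ x, (ixf (θ x)).ncard < N := by
    have : Fintype X := Fintype.ofFinite X
    refine ⟨(Finset.univ.sup fun x => (ixf (θ x)).ncard) + 1, fun x => ?_⟩
    exact Nat.lt_succ_of_le (Finset.le_sup (f := fun x => (ixf (θ x)).ncard) (Finset.mem_univ x))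
  obtain ⟨B, hB, h⟩ := Pool.Agent.Helper18.EH.ramsey_le (κ := X → Prop) N
    fun s x => ∃ e : ℚ → ℕ, StrictMonoOn e (ixf (θ x)) ∧ e '' (ixf (θ x)) = s ∧
      (θ x).Tr S (vl w c a e)
  refine ⟨B, hB, fun x e e' he he' h1 h2 => ?_⟩
  have hfin := ixf_fin (θ x)
  have hcol : ∀ (e : ℚ → ℕ) (he : StrictMonoOn e (ixf (θ x))), ((θ x).Tr S (vl w c a e) ↔
      ∃ e' : ℚ → ℕ, StrictMonoOn e' (ixf (θ x)) ∧
        e' '' (ixf (θ x)) = ((hfin.image e).toFinset : Set ℕ) ∧ (θ x).Tr S (vl w c a e')) := by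
    intro e he
    rw [Finite.coe_toFinset]
    constructor
    · intro h3
      exact ⟨e, he, rfl, h3⟩
    · rintro ⟨e', h3, h4, h5⟩
      exact (vl_tr S w c a _ _ _ (mono_unique hfin h3 he h4)).1 h5
  have hcard : ∀ (e : ℚ → ℕ) (he : StrictMonoOn e (ixf (θ x))),
      (hfin.image e).toFinset.card = (ixf (θ x)).ncard := by
    intro e he
    rw [← Set.ncard_eq_toFinset_card _ (hfin.image e), Set.InjOn.ncard_image he.injOn]
  rw [hcol e he, hcol e' he']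
  have h6 := h (hfin.image e).toFinset (hfin.image e').toFinset
    (by rw [Finite.coe_toFinset]; exact h1) (by rw [Finite.coe_toFinset]; exact h2)
    (by rw [hcard e he, hcard e' he']) (by rw [hcard e he]; exact hN x)
  exact iff_of_eq (congrFun h6 x)

/-- a map which is strictly monotone on a finite set, with values in an infinite set -/
theorem embed {F : Set ℚ} (hF : F.Finite) {B : Set ℕ} (hB : B.Infinite) :
    ∃ e : ℚ → ℕ, StrictMonoOn e F ∧ ∀ i, e i ∈ B := by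
  classical
  refine ⟨fun i => Nat.nth (· ∈ B) (F ∩ Iio i).ncard, ?_, fun i => Nat.nth_mem_of_infinite hB _⟩
  intro i hi j hj hij
  refine Nat.nth_strictMono hB ?_
  refine Set.ncard_lt_ncard ?_ (hF.inter_of_left _)
  constructor
  · rintro x ⟨h1, h2⟩
    exact ⟨h1, lt_trans h2 hij⟩
  · intro h
    exact lt_irrefl i (h ⟨hi, hij⟩).2

/-! ## Compactness -/

/-- the class given by U-formulas `Γ` for the constants `W` -/
def Mdl (Γ : Set (Uf L W)) (S : L.Structure M) (w : W → M) : Prop := ∀ φ ∈ Γ, φ.Tr S univ w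

theorem cpt (hb : BAS) {X : Type} [Nonempty X] (Γ : Set (Uf L X))
    (h : ∀ Δ ⊆ Γ, Δ.Finite → ∃ (M : Type) (S : L.Structure M) (v : X → M), Mdl Δ S v) :
    ∃ (M : Type) (S : L.Structure M) (v : X → M), Mdl Γ S v := by
  classical
  let T : Th L Empty := ⟨Empty, fun k => k.elim, fun k => k.elim⟩
  obtain ⟨M, N, v, -, hA, hv⟩ := thm_CPT hb L Empty T X ((fun φ => φ.map Sum.inr) '' Γ) (by
    intro Δ hΔ hfin
    have h0 : ∀ ψ : Δ, ∃ φ ∈ Γ, φ.map Sum.inr = ψ.1 := fun ψ => hΔ ψ.2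
    choose g hg1 hg2 using h0
    have hfi : Finite Δ := hfin
    obtain ⟨M, S, v, hv⟩ := h (range g) (range_subset_iff.2 hg1) (finite_range g)
    refine ⟨M, ⟨S, univ, fun p => p.elim⟩, v, ⟨?_, fun p => p.elim, fun x _ k => k.elim⟩,
      fun _ => mem_univ _, ?_⟩
    · exact ⟨v (Classical.arbitrary X), mem_univ _⟩
    · intro φ hφ
      have h1 := hg2 ⟨φ, hφ⟩
      rw [← show (g ⟨φ, hφ⟩).map Sum.inr = φ from h1]
      exact (hb.umap _ _ _ _ _).2 (hv _ ⟨⟨φ, hφ⟩, rfl⟩))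
  refine ⟨M, N.S, v, fun φ hφ => ?_⟩
  have h1 := hv _ ⟨φ, hφ, rfl⟩
  have h2 := (hb.umap _ _ _ _ _).1 h1
  rw [hA] at h2
  exact h2

theorem cpt_inf (hb : BAS) {Γ : Set (Uf L W)} {M : Type} [Nonempty M] {S : L.Structure M} {w : W → M}
    (hΓ : Mdl Γ S w) {α β : Type} {c : P → M} {q : Qf L (P ⊕ (α ⊕ β))}
    (h : Ldr (Rf S c q)) :
    ∃ (M : Type) (S : L.Structure M) (w : W → M) (c : P → M) (a : ℕ → α ⊕ β → M), Mdl Γ S w ∧
      ∀ i j, i ≠ j → (Rf S c q (a i ∘ Sum.inl) (a j ∘ Sum.inr) ↔ i < j) := by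
  classical
  -- the names `(W ⊕ P) ⊕ (ℕ × (α ⊕ β))`
  let X : Type := (W ⊕ P) ⊕ (ℕ × (α ⊕ β))
  let r : ℕ → ℕ → P ⊕ (α ⊕ β) → X := fun i j => Sum.elim (fun p => Sum.inl (Sum.inr p))
    (Sum.elim (fun k => Sum.inr (i, Sum.inl k)) fun k => Sum.inr (j, Sum.inr k))
  let θ : ℕ × ℕ → Qf L X := fun p => if p.1 < p.2 then q.map (r p.1 p.2) else (q.map (r p.1 p.2)).not
  let Γ1 : Set (Uf L X) := ((fun φ => φ.map fun x => Sum.inl (Sum.inl x)) '' Γ) ∪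
    ((fun p => Uf.qf (θ p)) '' {p | p.1 ≠ p.2})
  have hr : ∀ (M : Type) (S : L.Structure M) (v : X → M) (i j : ℕ),
      (q.map (r i j)).Tr S v ↔ Rf S (fun p => v (Sum.inl (Sum.inr p))) q
        (fun k => v (Sum.inr (i, Sum.inl k))) (fun k => v (Sum.inr (j, Sum.inr k))) := by
    intro M S v i j
    rw [qfc_tr_map]
    have h1 : v ∘ r i j = Sum.elim (fun p => v (Sum.inl (Sum.inr p)))
        (Sum.elim (fun k => v (Sum.inr (i, Sum.inl k))) (fun k => v (Sum.inr (j, Sum.inr k)))) := by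
      funext x
      rcases x with x | x | x <;> rfl
    rw [h1]
    exact Iff.rfl
  have hθ : ∀ (M : Type) (S : L.Structure M) (v : X → M) (i j : ℕ), i ≠ j →
      ((θ (i, j)).Tr S v ↔ (Rf S (fun p => v (Sum.inl (Sum.inr p))) q
        (fun k => v (Sum.inr (i, Sum.inl k))) (fun k => v (Sum.inr (j, Sum.inr k))) ↔ i < j)) := by
    intro M S v i j hij
    by_cases hlt : i < j
    · have h1 : θ (i, j) = q.map (r i j) := if_pos hlt
      rw [h1, hr]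
      exact ⟨fun h => ⟨fun _ => hlt, fun _ => h⟩, fun h => h.2 hlt⟩
    · have h1 : θ (i, j) = (q.map (r i j)).not := if_neg hlt
      rw [h1, hb.qnot, hr]
      exact ⟨fun h => ⟨fun h2 => absurd h2 h, fun h2 => absurd h2 hlt⟩, fun h h2 => hlt (h.1 h2)⟩
  have hX : Nonempty X ∨ IsEmpty X := (isEmpty_or_nonempty X).symm
  rcases hX with hX | hX
  swap
  · -- no names: `α` and `β` are empty
    obtain ⟨a, b, hab⟩ := h 2
    have hα : IsEmpty α := ⟨fun k => hX.false (Sum.inr (0, Sum.inl k))⟩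
    have hβ : IsEmpty β := ⟨fun k => hX.false (Sum.inr (0, Sum.inr k))⟩
    have h1 := hab 0 1 (by omega) (by omega) (by omega)
    have h2 := hab 1 0 (by omega) (by omega) (by omega)
    rw [Subsingleton.elim (a 0) (a 1), Subsingleton.elim (b 1) (b 0)] at h1
    rw [h2] at h1
    exact absurd (h1.2 (by omega)) (by omega)
  obtain ⟨M', S', v, hv⟩ := cpt hb Γ1 (by
    intro Δ hΔ hfin
    -- a bound for the indices in `Δ`
    have h0 : ∀ φ : Δ, ∃ N : ℕ, (∃ ψ ∈ Γ, φ.1 = ψ.map fun x => Sum.inl (Sum.inl x)) ∨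
        ∃ p : ℕ × ℕ, p.1 ≠ p.2 ∧ p.1 < N ∧ p.2 < N ∧ φ.1 = Uf.qf (θ p) := by
      intro φ
      rcases hΔ φ.2 with ⟨ψ, hψ, h1⟩ | ⟨p, hp, h1⟩
      · exact ⟨0, Or.inl ⟨ψ, hψ, h1.symm⟩⟩
      · exact ⟨p.1 + p.2 + 1, Or.inr ⟨p, hp, by omega, by omega, h1.symm⟩⟩
    choose N hN using h0
    have hfi : Fintype Δ := hfin.fintype
    obtain ⟨a, b, hab⟩ := h (Finset.univ.sup N + 1)
    refine ⟨M, S, Sum.elim (Sum.elim w c) fun p => Sum.elim (a p.1) (b p.1) p.2, fun φ hφ => ?_⟩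
    have hle : N ⟨φ, hφ⟩ ≤ Finset.univ.sup N := Finset.le_sup (Finset.mem_univ _)
    rcases hN ⟨φ, hφ⟩ with ⟨ψ, hψ, h1⟩ | ⟨p, h1, h2, h3, h4⟩
    · have h2 : φ = ψ.map fun x => Sum.inl (Sum.inl x) := h1
      rw [h2, hb.umap]
      exact hΓ ψ hψ
    · have h5 : φ = Uf.qf (θ p) := h4
      rw [h5, hb.uqf]
      obtain ⟨i, j⟩ := p
      rw [hθ _ _ _ _ _ h1]
      exact hab i j (by omega) (by omega) h1)
  refine ⟨M', S', fun x => v (Sum.inl (Sum.inl x)), fun p => v (Sum.inl (Sum.inr p)),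
    fun i k => v (Sum.inr (i, k)), fun φ hφ => ?_, fun i j hij => ?_⟩
  · have h1 := hv _ (Or.inl ⟨φ, hφ, rfl⟩)
    rw [hb.umap] at h1
    exact h1
  · have h1 := hv _ (Or.inr ⟨(i, j), hij, rfl⟩)
    rw [hb.uqf, hθ _ _ _ _ _ hij] at h1
    exact h1

/-- an indiscernible ladder -/
theorem cpt_ind (hb : BAS) {Γ : Set (Uf L W)} {M : Type} [Nonempty M] {S : L.Structure M}
    {w : W → M} (hΓ : Mdl Γ S w) {α β : Type} {c : P → M} {q : Qf L (P ⊕ (α ⊕ β))}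
    (a : ℕ → α ⊕ β → M)
    (h : ∀ i j, i ≠ j → (Rf S c q (a i ∘ Sum.inl) (a j ∘ Sum.inr) ↔ i < j))
    (hX : Nonempty (Nm W P (α ⊕ β))) :
    ∃ (V : Type) (S : L.Structure V) (v : Nm W P (α ⊕ β) → V),
      Mdl Γ S (fun x => v (Sum.inl (Sum.inl x))) ∧
      (∀ i j : ℚ, i ≠ j → (Rf S (fun p => v (Sum.inl (Sum.inr p))) q
        (fun k => v (Sum.inr (i, Sum.inl k))) (fun k => v (Sum.inr (j, Sum.inr k))) ↔ i < j)) ∧
      ∀ (θ : Qf L (Nm W P (α ⊕ β))) (σ : ℚ → ℚ), StrictMonoOn σ (ixf θ) →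
        (θ.Tr S v ↔ θ.Tr S (v ∘ mvn σ)) := by
  classical
  let X : Type := Nm W P (α ⊕ β)
  let r : ℚ → ℚ → P ⊕ (α ⊕ β) → X := fun i j => Sum.elim (fun p => Sum.inl (Sum.inr p))
    (Sum.elim (fun k => Sum.inr (i, Sum.inl k)) fun k => Sum.inr (j, Sum.inr k))
  let θ : ℚ × ℚ → Qf L X := fun p => if p.1 < p.2 then q.map (r p.1 p.2) else (q.map (r p.1 p.2)).not
  have hr : ∀ (M : Type) (S : L.Structure M) (v : X → M) (i j : ℚ),
      (q.map (r i j)).Tr S v ↔ Rf S (fun p => v (Sum.inl (Sum.inr p))) q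
        (fun k => v (Sum.inr (i, Sum.inl k))) (fun k => v (Sum.inr (j, Sum.inr k))) := by
    intro M S v i j
    rw [qfc_tr_map]
    have h1 : v ∘ r i j = Sum.elim (fun p => v (Sum.inl (Sum.inr p)))
        (Sum.elim (fun k => v (Sum.inr (i, Sum.inl k))) (fun k => v (Sum.inr (j, Sum.inr k)))) := by
      funext x
      rcases x with x | x | x <;> rfl
    rw [h1]
    exact Iff.rfl
  have hθ : ∀ (M : Type) (S : L.Structure M) (v : X → M) (i j : ℚ), i ≠ j →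
      ((θ (i, j)).Tr S v ↔ (Rf S (fun p => v (Sum.inl (Sum.inr p))) q
        (fun k => v (Sum.inr (i, Sum.inl k))) (fun k => v (Sum.inr (j, Sum.inr k))) ↔ i < j)) := by
    intro M S v i j hij
    by_cases hlt : i < j
    · have h1 : θ (i, j) = q.map (r i j) := if_pos hlt
      rw [h1, hr]
      exact ⟨fun h => ⟨fun _ => hlt, fun _ => h⟩, fun h => h.2 hlt⟩
    · have h1 : θ (i, j) = (q.map (r i j)).not := if_neg hlt
      rw [h1, hb.qnot, hr]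
      exact ⟨fun h => ⟨fun h2 => absurd h2 h, fun h2 => absurd h2 hlt⟩, fun h h2 => hlt (h.1 h2)⟩
  let Γ2 : Set (Uf L X) := (((fun φ => φ.map fun x => Sum.inl (Sum.inl x)) '' Γ) ∪
    ((fun p => Uf.qf (θ p)) '' {p | p.1 ≠ p.2})) ∪
    {φ | ∃ (ψ : Qf L X) (σ : ℚ → ℚ), StrictMonoOn σ (ixf ψ) ∧ φ = Uf.qf (ψ.imp (ψ.map (mvn σ)))}
  obtain ⟨V, S', v, hv⟩ := cpt hb Γ2 (by
    intro Δ hΔ hfin
    have h0 : ∀ φ : Δ, ∃ (ψ : Qf L X) (σ : ℚ → ℚ) (p : ℚ × ℚ),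
        ((∃ ψ ∈ Γ, φ.1 = ψ.map fun x => Sum.inl (Sum.inl x)) ∨
        (p.1 ≠ p.2 ∧ φ.1 = Uf.qf (θ p))) ∨
        (StrictMonoOn σ (ixf ψ) ∧ φ.1 = Uf.qf (ψ.imp (ψ.map (mvn σ)))) := by
      intro φ
      rcases hΔ φ.2 with (⟨ψ, hψ, h1⟩ | ⟨p, hp, h1⟩) | ⟨ψ, σ, h1, h2⟩
      · exact ⟨.bot, id, (0, 0), Or.inl (Or.inl ⟨ψ, hψ, h1.symm⟩)⟩
      · exact ⟨.bot, id, p, Or.inl (Or.inr ⟨hp, h1.symm⟩)⟩
      · exact ⟨ψ, σ, (0, 0), Or.inr ⟨h1, h2⟩⟩
    choose ψ σ p hψ using h0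
    have hfi : Finite Δ := hfin
    obtain ⟨B, hB, hBh⟩ := hom S w c a ψ
    let F : Set ℚ := ⋃ φ : Δ, (ixf (ψ φ) ∪ σ φ '' ixf (ψ φ) ∪ {(p φ).1, (p φ).2})
    have hF : F.Finite := finite_iUnion fun φ =>
      (((ixf_fin _).union ((ixf_fin _).image _)).union ((finite_singleton _).insert _))
    obtain ⟨e, he, heB⟩ := embed hF hB
    refine ⟨M, S, vl w c a e, fun φ hφ => ?_⟩
    have hsub : ixf (ψ ⟨φ, hφ⟩) ∪ σ ⟨φ, hφ⟩ '' ixf (ψ ⟨φ, hφ⟩) ∪ {(p ⟨φ, hφ⟩).1, (p ⟨φ, hφ⟩).2} ⊆ F :=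
      subset_iUnion (fun φ : Δ => ixf (ψ φ) ∪ σ φ '' ixf (ψ φ) ∪ {(p φ).1, (p φ).2}) ⟨φ, hφ⟩
    rcases hψ ⟨φ, hφ⟩ with (⟨ψ', hψ', h1⟩ | ⟨h1, h2⟩) | ⟨h1, h2⟩
    · have h2 : φ = ψ'.map fun x => Sum.inl (Sum.inl x) := h1
      rw [h2, hb.umap]
      exact hΓ ψ' hψ'
    · have h5 : φ = Uf.qf (θ (p ⟨φ, hφ⟩)) := h2
      rw [h5, hb.uqf, hθ _ _ _ _ _ h1]
      have h3 : (p ⟨φ, hφ⟩).1 ∈ F := hsub (Or.inr (Or.inl rfl))
      have h4 : (p ⟨φ, hφ⟩).2 ∈ F := hsub (Or.inr (Or.inr rfl))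
      have h6 : e (p ⟨φ, hφ⟩).1 ≠ e (p ⟨φ, hφ⟩).2 := fun h => h1 (he.injOn h3 h4 h)
      rw [← he.lt_iff_lt h3 h4]
      exact h _ _ h6
    · have h5 : φ = Uf.qf ((ψ ⟨φ, hφ⟩).imp ((ψ ⟨φ, hφ⟩).map (mvn (σ ⟨φ, hφ⟩)))) := h2
      rw [h5, hb.uqf]
      intro h3
      show ((ψ ⟨φ, hφ⟩).map (mvn (σ ⟨φ, hφ⟩))).Tr S (vl w c a e)
      rw [qfc_tr_map, vl_mvn]
      refine (hBh ⟨φ, hφ⟩ e (e ∘ σ ⟨φ, hφ⟩) ?_ ?_ ?_ ?_).1 h3
      · exact he.mono fun i hi => hsub (Or.inl (Or.inl hi))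
      · intro i hi j hj hij
        exact he (hsub (Or.inl (Or.inr ⟨i, hi, rfl⟩))) (hsub (Or.inl (Or.inr ⟨j, hj, rfl⟩)))
          (h1 hi hj hij)
      · rintro _ ⟨i, -, rfl⟩
        exact heB i
      · rintro _ ⟨i, -, rfl⟩
        exact heB _)
  refine ⟨V, S', v, fun φ hφ => ?_, fun i j hij => ?_, fun ψ σ hσ => ?_⟩
  · have h1 := hv _ (Or.inl (Or.inl ⟨φ, hφ, rfl⟩))
    rw [hb.umap] at h1
    exact h1
  · have h1 := hv _ (Or.inl (Or.inr ⟨(i, j), hij, rfl⟩))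
    rw [hb.uqf, hθ _ _ _ _ _ hij] at h1
    exact h1
  · have hnot : ixf ψ.not = ixf ψ := by
      have h1 : vs ψ.not = vs ψ := by
        show vs ψ ∪ ∅ = vs ψ
        exact union_empty _
      unfold ixf
      rw [h1]
    have h1 := hv _ (Or.inr ⟨ψ, σ, hσ, rfl⟩)
    have h2 := hv _ (Or.inr ⟨ψ.not, σ, by rw [hnot]; exact hσ, rfl⟩)
    rw [hb.uqf] at h1 h2
    have h3 : ψ.Tr S' v → (ψ.map (mvn σ)).Tr S' v := h1
    have h4 : ψ.not.Tr S' v → (ψ.not.map (mvn σ)).Tr S' v := h2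
    rw [qfc_tr_map] at h3 h4
    rw [hb.qnot, hb.qnot] at h4
    exact ⟨h3, fun h5 => by
      by_contra h6
      exact h4 h6 h5⟩

end EAP
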