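import Pool.Agent.EAP.PB

/-!
# EAP [PC]: quantifier free formulas are stable

`par1`: let `Γ` be a set of U-formulas with countably many constants, such that all countable
structures with these constants in which `Γ` is true are members of a scattered class. Then in no
model of `Γ`, of any size, a quantifier free formula with parameters has ladders of all finite
lengths.
-/

set_option autoImplicit false
set_option linter.unusedVariables false
set_option linter.unusedSectionVars false

namespace EAP

open Set ORD Pool.Agent.Helper5.DU Pool.Agent.Helper6.Str Pool.Agent.Helper79.VC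

variable {L : FirstOrder.Language.{0, 0}} {M V W P R α β ι : Type}

/-- a constant coordinate can be replaced by a parameter -/
theorem ldr_const [Finite α] [Finite β] (S : L.Structure V) (c : P → V) (q : Qf L (P ⊕ (α ⊕ β)))
    (a : ℕ → α ⊕ β → V)
    (h : ∀ i j, i ≠ j → (Rf S c q (a i ∘ Sum.inl) (a j ∘ Sum.inr) ↔ i < j)) (k : α ⊕ β) (e : V)
    (hk : ∀ i, a i k = e) :
    ∃ (α' β' : Type) (_ : Finite α') (_ : Finite β') (q' : Qf L ((P ⊕ Unit) ⊕ (α' ⊕ β')))
      (c' : P ⊕ Unit → V), Nat.card α' + Nat.card β' < Nat.card α + Nat.card β ∧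
        Ldr (Rf S c' q') := by
  classical
  let A : Type := {x : α // Sum.inl x ≠ k}
  let B : Type := {y : β // Sum.inr y ≠ k}
  let ρ : P ⊕ (α ⊕ β) → (P ⊕ Unit) ⊕ (A ⊕ B) := Sum.elim (fun p => Sum.inl (Sum.inl p))
    (Sum.elim (fun x => if h : Sum.inl x ≠ k then Sum.inr (Sum.inl ⟨x, h⟩) else Sum.inl (Sum.inr ()))
      fun y => if h : Sum.inr y ≠ k then Sum.inr (Sum.inr ⟨y, h⟩) else Sum.inl (Sum.inr ()))
  have hA : Finite A := inferInstance
  have hB : Finite B := inferInstance
  refine ⟨A, B, hA, hB, q.map ρ, Sum.elim c fun _ => e, ?_, ?_⟩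
  · rcases k with k | k
    · have h1 : Nat.card A < Nat.card α := Finite.card_subtype_lt (x := k) (fun h => h rfl)
      have h2 : Nat.card B ≤ Nat.card β := Finite.card_subtype_le _
      omega
    · have h1 : Nat.card B < Nat.card β := Finite.card_subtype_lt (x := k) (fun h => h rfl)
      have h2 : Nat.card A ≤ Nat.card α := Finite.card_subtype_le _
      omega
  · intro N
    refine ⟨fun i x => a i (Sum.inl x.1), fun j y => a j (Sum.inr y.1), fun i j _ _ hij => ?_⟩
    rw [← h i j hij]
    show (q.map ρ).Tr S _ ↔ q.Tr S _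
    rw [qfc_tr_map]
    have h4 : Sum.elim (Sum.elim c fun _ => e) (Sum.elim (fun x : A => a i (Sum.inl x.1))
        (fun y : B => a j (Sum.inr y.1))) ∘ ρ
        = Sum.elim c (Sum.elim (a i ∘ Sum.inl) (a j ∘ Sum.inr)) := by
      funext x
      rcases x with x | x | x
      · rfl
      · by_cases h : Sum.inl x ≠ k
        · have h5 : ρ (Sum.inr (Sum.inl x)) = Sum.inr (Sum.inl ⟨x, h⟩) := dif_pos h
          show Sum.elim _ _ (ρ (Sum.inr (Sum.inl x))) = _
          rw [h5]
          rfl
        · have h5 : ρ (Sum.inr (Sum.inl x)) = Sum.inl (Sum.inr ()) := dif_neg h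
          show Sum.elim _ _ (ρ (Sum.inr (Sum.inl x))) = _
          rw [h5]
          show e = a i (Sum.inl x)
          rw [not_not.1 h, hk]
      · by_cases h : Sum.inr x ≠ k
        · have h5 : ρ (Sum.inr (Sum.inr x)) = Sum.inr (Sum.inr ⟨x, h⟩) := dif_pos h
          show Sum.elim _ _ (ρ (Sum.inr (Sum.inr x))) = _
          rw [h5]
          rfl
        · have h5 : ρ (Sum.inr (Sum.inr x)) = Sum.inl (Sum.inr ()) := dif_neg h
          show Sum.elim _ _ (ρ (Sum.inr (Sum.inr x))) = _
          rw [h5]
          show e = a j (Sum.inr x)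
          rw [not_not.1 h, hk]
    rw [h4]

theorem ldr_ne {φ : (α → V) → (β → V) → Prop} (h : Ldr φ) : Nonempty α ∧ Nonempty β := by
  obtain ⟨a, b, hab⟩ := h 3
  have h1 := hab 0 1 (by omega) (by omega) (by omega)
  have h2 := hab 2 1 (by omega) (by omega) (by omega)
  have h3 := hab 1 2 (by omega) (by omega) (by omega)
  have h4 := hab 1 0 (by omega) (by omega) (by omega)
  constructor
  · by_contra hα
    rw [not_nonempty_iff] at hα
    rw [Subsingleton.elim (a 2) (a 0), h1] at h2
    exact absurd (h2.1 (by omega)) (by omega)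
  · by_contra hβ
    rw [not_nonempty_iff] at hβ
    rw [Subsingleton.elim (b 0) (b 2), h3] at h4
    exact absurd (h4.1 (by omega)) (by omega)

/-- **Quantifier free formulas are stable.** -/
theorem par1 [∀ n, IsEmpty (L.Functions n)] {K : Set (L.Structure ℕ)} (hK : Scat K)
    [Countable W] (Γ : Set (Uf L W))
    (hcl : ∀ (V : Type) (S : L.Structure V) (w : W → V), Mdl Γ S w → ∀ e : ℕ → V,
      Function.Injective e → range w ⊆ range e → pl S e ∈ K)
    (M : Type) [Nonempty M] (S : L.Structure M) (w : W → M) (hM : Mdl Γ S w)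
    (P α β : Type) [Finite P] [Finite α] [Finite β] (q : Qf L (P ⊕ (α ⊕ β))) (c : P → M) :
    ¬ Ldr (Rf S c q) := by
  classical
  intro hl
  have hb : BAS := thm_BAS
  let Q : ℕ → Prop := fun n => ∃ (M : Type) (_ : Nonempty M) (S : L.Structure M) (w : W → M)
    (P α β : Type) (_ : Finite P) (_ : Finite α) (_ : Finite β) (q : Qf L (P ⊕ (α ⊕ β)))
    (c : P → M), Mdl Γ S w ∧ Nat.card α + Nat.card β = n ∧ Ldr (Rf S c q)
  have hQ : ∃ n, Q n := ⟨_, M, inferInstance, S, w, P, α, β, inferInstance, inferInstance,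
    inferInstance, q, c, hM, rfl, hl⟩
  have hmin : ∀ (M : Type) [Nonempty M] (S : L.Structure M) (w : W → M), Mdl Γ S w →
      Mnl S (Nat.find hQ) := by
    intro M _ S w hM P' α' β' _ _ _ q' c' hlt hl'
    exact Nat.find_min hQ hlt ⟨M, inferInstance, S, w, P', α', β', inferInstance, inferInstance,
      inferInstance, q', c', hM, rfl, hl'⟩
  obtain ⟨M, hMn, S, w, P, α, β, hP, hα, hβ, q, c, hM, hcard, hl⟩ := Nat.find_spec hQ
  rw [← hcard] at hmin
  obtain ⟨hαn, hβn⟩ := ldr_ne hl
  obtain ⟨M1, S1, w1, c1, a, hM1, hlad⟩ := cpt_inf hb hM hl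
  have hM1n : Nonempty M1 := ⟨a 0 (Sum.inl (Classical.arbitrary α))⟩
  obtain ⟨V, S2, v, hV, hladV, hind⟩ := cpt_ind hb hM1 a hlad
    ⟨Sum.inr (0, Sum.inl (Classical.arbitrary α))⟩
  have hVn : Nonempty V := ⟨v (Sum.inr (0, Sum.inl (Classical.arbitrary α)))⟩
  have hVm := hmin V S2 _ hV
  -- the constants and the sequence
  let C : Set V := range fun x : W ⊕ P => v (Sum.inl x)
  let d : ℚ → α ⊕ β → V := fun i k => v (Sum.inr (i, k))
  have hname : ∀ t : C ⊕ (ℚ × (α ⊕ β)), ∃ n : Nm W P (α ⊕ β), v n = ev d t ∧ ixn n = ix t ∧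
      ∀ σ, v (mvn σ n) = ev d (mv σ t) := by
    intro t
    rcases t with ⟨x, n, hn⟩ | t
    · exact ⟨Sum.inl n, hn, rfl, fun σ => hn⟩
    · exact ⟨Sum.inr t, rfl, rfl, fun σ => rfl⟩
  have hInd : Indc S2 C d := by
    intro ι _ q' s σ hσ
    choose n hn1 hn2 hn3 using fun i => hname (s i)
    have h1 : ixf (q'.map n) ⊆ ⋃ i, ix (s i) := by
      intro i hi
      obtain ⟨x, hx, hix⟩ := mem_iUnion₂.1 hi
      rw [vs_map] at hx
      obtain ⟨y, -, rfl⟩ := hx
      rw [hn2] at hix
      exact mem_iUnion.2 ⟨y, hix⟩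
    have h2 := hind (q'.map n) σ (hσ.mono h1)
    rw [qfc_tr_map, qfc_tr_map] at h2
    rw [show v ∘ n = ev d ∘ s from funext hn1,
      show (v ∘ mvn σ) ∘ n = ev d ∘ mv σ ∘ s from funext fun i => hn3 i σ] at h2
    exact h2
  -- constant coordinates do not exist
  have hconst : ∀ (k : α ⊕ β) (e : V), ¬ ∀ i : ℚ, d i k = e := by
    intro k e hk
    obtain ⟨α', β', hα', hβ', q', c', hlt, hl'⟩ := ldr_const S2 (fun p => v (Sum.inl (Sum.inr p)))
      q (fun n => d (n : ℚ)) (fun i j hij => by
        have h1 := hladV (i : ℚ) (j : ℚ) (by exact_mod_cast hij)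
        rw [show ((i : ℚ) < (j : ℚ)) = (i < j) from propext (by exact_mod_cast Iff.rfl)] at h1
        exact h1) k e fun i => hk _
    exact hVm (P ⊕ Unit) α' β' q' c' hlt hl'
  have heq : ∀ (s : Fin 2 → C ⊕ (ℚ × (α ⊕ β))) (σ : ℚ → ℚ), StrictMonoOn σ (⋃ i, ix (s i)) →
      (ev d (s 0) = ev d (s 1) ↔ ev d (mv σ (s 0)) = ev d (mv σ (s 1))) := fun s σ hσ =>
    hInd (Fin 2) (Qf.eq 0 1) s σ hσ
  let N : ℕ := Nat.card α + Nat.card β + 1
  let D : Dat L V P (α ⊕ β) α β (Fin N) :=
    { S := S2
      M := C
      d := d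
      c := fun p => ⟨v (Sum.inl (Sum.inr p)), Sum.inr p, rfl⟩
      q := q
      fa := Sum.inl
      fb := Sum.inr
      s := fun l => ((l : ℕ) : ℚ) - N
      u := fun l => ((l : ℕ) : ℚ) + 1
      ind := hInd
      min := hVm
      lad := hladV
      new := by
        intro i k hik
        refine hconst k (d i k) fun i' => ?_
        have h1 := heq ![Sum.inl ⟨d i k, hik⟩, Sum.inr (i, k)] (mv1 i i') (by
          have hc : ∀ e ∈ ⋃ j, ix ((![Sum.inl ⟨d i k, hik⟩, Sum.inr (i, k)] :
              Fin 2 → C ⊕ (ℚ × (α ⊕ β))) j), e = i := by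
            intro e he
            obtain ⟨j, hj⟩ := mem_iUnion.1 he
            fin_cases j
            · exact absurd hj (notMem_empty _)
            · exact mem_singleton_iff.1 hj
          intro e he e' he' hee
          rw [hc e he, hc e' he'] at hee
          exact absurd hee (lt_irrefl _))
        have h2 : d i k = d (mv1 i i' i) k := h1.1 rfl
        rw [JF_mv1] at h2
        exact h2.symm
      dif := by
        intro i j k l hij he
        -- all pairs in the same position are equal
        have hall : ∀ i' j' : ℚ, ((i < j ∧ i' < j') ∨ (j < i ∧ j' < i')) → d i' k = d j' l := by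
          intro i' j' hpos
          have h1 := heq ![Sum.inr (i, k), Sum.inr (j, l)] (Function.update (mv1 i i') j j') (by
            have hi : Function.update (mv1 i i') j j' i = i' := by
              rw [Function.update_of_ne hij, JF_mv1]
            have hj : Function.update (mv1 i i') j j' j = j' := Function.update_self ..
            have hc : ∀ e ∈ ⋃ x, ix ((![Sum.inr (i, k), Sum.inr (j, l)] :
                Fin 2 → C ⊕ (ℚ × (α ⊕ β))) x), e = i ∨ e = j := by
              intro e he
              obtain ⟨x, hx⟩ := mem_iUnion.1 he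
              fin_cases x
              · exact Or.inl (mem_singleton_iff.1 hx)
              · exact Or.inr (mem_singleton_iff.1 hx)
            intro e he e' he' hee
            rcases hc e he with rfl | rfl <;> rcases hc e' he' with rfl | rfl
            · exact absurd hee (lt_irrefl _)
            · rw [hi, hj]
              rcases hpos with h | h
              · exact h.2
              · exact absurd hee (not_lt.2 h.1.le)
            · rw [hi, hj]
              rcases hpos with h | h
              · exact absurd hee (not_lt.2 h.1.le)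
              · exact h.2
            · exact absurd hee (lt_irrefl _))
          have h2 : d (Function.update (mv1 i i') j j' i) k =
              d (Function.update (mv1 i i') j j' j) l := h1.1 he
          rw [Function.update_of_ne hij, JF_mv1, Function.update_self] at h2
          exact h2
        refine hconst k (d i k) fun i' => ?_
        rcases lt_or_gt_of_ne hij with h | h
        · rw [hall i' (max i i' + 1) (Or.inl ⟨h, (le_max_right _ _).trans_lt (lt_add_one _)⟩),
            hall i (max i i' + 1) (Or.inl ⟨h, (le_max_left _ _).trans_lt (lt_add_one _)⟩)]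
        · rw [hall i' (min i i' - 1) (Or.inr ⟨h, (sub_one_lt _).trans_le (min_le_right _ _)⟩),
            hall i (min i i' - 1) (Or.inr ⟨h, (sub_one_lt _).trans_le (min_le_left _ _)⟩)]
      sin := by
        intro l l' h
        have h1 : ((l : ℕ) : ℚ) - N = ((l' : ℕ) : ℚ) - N := h
        have h2 : ((l : ℕ) : ℚ) = ((l' : ℕ) : ℚ) := by linarith
        exact Fin.ext (by exact_mod_cast h2)
      uin := by
        intro l l' h
        have h1 : ((l : ℕ) : ℚ) + 1 = ((l' : ℕ) : ℚ) + 1 := h
        have h2 : ((l : ℕ) : ℚ) = ((l' : ℕ) : ℚ) := by linarith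
        exact Fin.ext (by exact_mod_cast h2)
      su := by
        intro l l'
        show ((l : ℕ) : ℚ) - N < ((l' : ℕ) : ℚ) + 1
        have h1 : ((l : ℕ) : ℚ) < (N : ℚ) := by exact_mod_cast l.2
        have h2 : (0 : ℚ) ≤ ((l' : ℕ) : ℚ) := Nat.cast_nonneg _
        linarith
      ka := by
        rw [Nat.card_eq_fintype_card (α := Fin N), Fintype.card_fin]
        show Nat.card α < Nat.card α + Nat.card β + 1
        omega
      kb := by
        rw [Nat.card_eq_fintype_card (α := Fin N), Fintype.card_fin]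
        show Nat.card β < Nat.card α + Nat.card β + 1
        omega }
  refine pa hK N D rfl rfl (countable_range _) ?_
  intro A hA e he1 he2
  refine hcl V S2 _ hV e he1 ?_
  rintro _ ⟨x, rfl⟩
  rw [he2]
  exact hA ⟨Sum.inl x, rfl⟩

end EAP
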