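import Pool.Agent.EAP.PC

/-!
# EAP [PD]: uniform bounds for ladders
-/

set_option autoImplicit false
set_option linter.unusedVariables false
set_option linter.unusedSectionVars false

namespace EAP

open Set ORD Pool.Agent.Helper5.DU Pool.Agent.Helper6.Str Pool.Agent.Helper79.VC

variable {L : FirstOrder.Language.{0, 0}} {M V W P R α β ι : Type}

/-- ladders of all finite lengths in different models give an infinite ladder in one model -/
theorem cpt_all {Γ : Set (Uf L W)} [Nonempty α] {q : Qf L (P ⊕ (α ⊕ β))}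
    (h : ∀ N : ℕ, ∃ (M : Type) (S : L.Structure M) (w : W → M) (c : P → M) (a : ℕ → α → M)
      (b : ℕ → β → M), Mdl Γ S w ∧ ∀ i j, i < N → j < N → i ≠ j → (Rf S c q (a i) (b j) ↔ i < j)) :
    ∃ (M : Type) (S : L.Structure M) (w : W → M) (c : P → M) (a : ℕ → α ⊕ β → M), Mdl Γ S w ∧
      ∀ i j, i ≠ j → (Rf S c q (a i ∘ Sum.inl) (a j ∘ Sum.inr) ↔ i < j) := by
  classical
  have hb : BAS := thm_BAS
  -- the names `(W ⊕ P) ⊕ (ℕ × (α ⊕ β))`
  let X : Type := (W ⊕ P) ⊕ (ℕ × (α ⊕ β))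
  let r : ℕ → ℕ → P ⊕ (α ⊕ β) → X := fun i j => Sum.elim (fun p => Sum.inl (Sum.inr p))
    (Sum.elim (fun k => Sum.inr (i, Sum.inl k)) fun k => Sum.inr (j, Sum.inr k))
  let θ : ℕ × ℕ → Qf L X := fun p => if p.1 < p.2 then q.map (r p.1 p.2) else (q.map (r p.1 p.2)).not
  let Γ1 : Set (Uf L X) := ((fun φ => φ.map fun x => Sum.inl (Sum.inl x)) '' Γ) ∪
    ((fun p => Uf.qf (θ p)) '' {p | p.1 ≠ p.2})
  have hr : ∀ (M : Type) (S : L.Structure M) (v : X → M) (i j : ℕ),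
      (q.map (r i j)).Tr S v ↔ Rf S (fun p => v (Sum.inl (Sum.inr p))) q
        (fun k => v (Sum.inr (i, Sum.inl k))) (fun k => v (Sum.inr (j, Sum.inr k))) := by
    intro M S v i j
    rw [qfc_tr_map]
    have h1 : v ∘ r i j = Sum.elim (fun p => v (Sum.inl (Sum.inr p)))
        (Sum.elim (fun k => v (Sum.inr (i, Sum.inl k))) (fun k => v (Sum.inr (j, Sum.inr k)))) := by
      funext x
      rcases x with x | x | x <;> rfl
    rw [h1]
    exact Iff.rfl
  have hθ : ∀ (M : Type) (S : L.Structure M) (v : X → M) (i j : ℕ), i ≠ j →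
      ((θ (i, j)).Tr S v ↔ (Rf S (fun p => v (Sum.inl (Sum.inr p))) q
        (fun k => v (Sum.inr (i, Sum.inl k))) (fun k => v (Sum.inr (j, Sum.inr k))) ↔ i < j)) := by
    intro M S v i j hij
    by_cases hlt : i < j
    · have h1 : θ (i, j) = q.map (r i j) := if_pos hlt
      rw [h1, hr]
      exact ⟨fun h => ⟨fun _ => hlt, fun _ => h⟩, fun h => h.2 hlt⟩
    · have h1 : θ (i, j) = (q.map (r i j)).not := if_neg hlt
      rw [h1, hb.qnot, hr]
      exact ⟨fun h => ⟨fun h2 => absurd h2 h, fun h2 => absurd h2 hlt⟩, fun h h2 => hlt (h.1 h2)⟩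
  have hX : Nonempty X := ⟨Sum.inr (0, Sum.inl (Classical.arbitrary α))⟩
  obtain ⟨M', S', v, hv⟩ := cpt hb Γ1 (by
    intro Δ hΔ hfin
    -- a bound for the indices in `Δ`
    have h0 : ∀ φ : Δ, ∃ N : ℕ, (∃ ψ ∈ Γ, φ.1 = ψ.map fun x => Sum.inl (Sum.inl x)) ∨
        ∃ p : ℕ × ℕ, p.1 ≠ p.2 ∧ p.1 < N ∧ p.2 < N ∧ φ.1 = Uf.qf (θ p) := by
      intro φ
      rcases hΔ φ.2 with ⟨ψ, hψ, h1⟩ | ⟨p, hp, h1⟩
      · exact ⟨0, Or.inl ⟨ψ, hψ, h1.symm⟩⟩
      · exact ⟨p.1 + p.2 + 1, Or.inr ⟨p, hp, by omega, by omega, h1.symm⟩⟩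
    choose N hN using h0
    have hfi : Fintype Δ := hfin.fintype
    obtain ⟨M, S, w, c, a, b, hΓ, hab⟩ := h (Finset.univ.sup N + 1)
    refine ⟨M, S, Sum.elim (Sum.elim w c) fun p => Sum.elim (a p.1) (b p.1) p.2, fun φ hφ => ?_⟩
    have hle : N ⟨φ, hφ⟩ ≤ Finset.univ.sup N := Finset.le_sup (Finset.mem_univ _)
    rcases hN ⟨φ, hφ⟩ with ⟨ψ, hψ, h1⟩ | ⟨p, h1, h2, h3, h4⟩
    · have h2 : φ = ψ.map fun x => Sum.inl (Sum.inl x) := h1
      rw [h2, hb.umap]
      exact hΓ ψ hψ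
    · have h5 : φ = Uf.qf (θ p) := h4
      rw [h5, hb.uqf]
      obtain ⟨i, j⟩ := p
      rw [hθ _ _ _ _ _ h1]
      exact hab i j (by omega) (by omega) h1)
  refine ⟨M', S', fun x => v (Sum.inl (Sum.inl x)), fun p => v (Sum.inl (Sum.inr p)),
    fun i k => v (Sum.inr (i, k)), fun φ hφ => ?_, fun i j hij => ?_⟩
  · have h1 := hv _ (Or.inl ⟨φ, hφ, rfl⟩)
    rw [hb.umap] at h1
    exact h1
  · have h1 := hv _ (Or.inr ⟨(i, j), hij, rfl⟩)
    rw [hb.uqf, hθ _ _ _ _ _ hij] at h1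
    exact h1

/-- **Uniform bounds.** Under the hypotheses of `par1` there is for every quantifier free formula a
bound for the lengths of ladders which holds in all models of `Γ`, of any size. -/
theorem bound [∀ n, IsEmpty (L.Functions n)] {K : Set (L.Structure ℕ)} (hK : Scat K)
    [Countable W] (Γ : Set (Uf L W))
    (hcl : ∀ (V : Type) (S : L.Structure V) (w : W → V), Mdl Γ S w → ∀ e : ℕ → V,
      Function.Injective e → range w ⊆ range e → pl S e ∈ K)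
    (P α β : Type) [Finite P] [Finite α] [Finite β] (q : Qf L (P ⊕ (α ⊕ β))) :
    ∃ N : ℕ, ∀ (M : Type) (S : L.Structure M) (w : W → M), Mdl Γ S w → ∀ (c : P → M)
      (a : ℕ → α → M) (b : ℕ → β → M),
      ¬ ∀ i j, i < N → j < N → i ≠ j → (Rf S c q (a i) (b j) ↔ i < j) := by
  by_contra hcon
  push Not at hcon
  have hα : Nonempty α := by
    by_contra hα
    rw [not_nonempty_iff] at hα
    obtain ⟨M, S, w, -, c, a, b, hab⟩ := hcon 3
    have h1 := hab 0 1 (by omega) (by omega) (by omega)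
    have h2 := hab 2 1 (by omega) (by omega) (by omega)
    rw [Subsingleton.elim (a 2) (a 0), h1] at h2
    exact absurd (h2.1 (by omega)) (by omega)
  obtain ⟨M, S, w, c, a, hM, hab⟩ := cpt_all (Γ := Γ) (q := q) fun N => by
    obtain ⟨M, S, w, hM, c, a, b, hab⟩ := hcon N
    exact ⟨M, S, w, c, a, b, hM, hab⟩
  have hMn : Nonempty M := ⟨a 0 (Sum.inl (Classical.arbitrary α))⟩
  exact par1 hK Γ hcl M S w hM P α β q c fun N => ⟨fun i => a i ∘ Sum.inl, fun j => a j ∘ Sum.inr,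
    fun i j _ _ hij => hab i j hij⟩

end EAP
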